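import Pool.Agent.TH992.E.Prob
import Pool.Agent.H160R2.ML.T_FIN
import Pool.Agent.H160R2.ML.All

/-!
The measure on the plane.
-/

set_option autoImplicit false

namespace TH992.E

open H974 H906.Cyl Finset
open MeasureTheory
open Pool.Agent.H160R2.ML (nm KArm)
open Pool.Agent.H160R2.ML.TFIN (Z2 crit annGraph annGraph_reach annE_sub)

/-- monotonicity in the inner radius -/
theorem karm_mono {k a r n : ℕ} (har : a ≤ r) (hrn : r ≤ n) {F : Set Edg} (h : KArm k a n F) :
    KArm k r n F := by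
  obtain ⟨x, hx, hxd⟩ := h
  obtain ⟨B, hB⟩ : ∃ B : Set Vtx, B = {v | nm v ≤ r} := ⟨_, rfl⟩
  have hEE : ∀ e : Edg, nm (src e) ≤ nm (tgt e) + 1 ∧ nm (tgt e) ≤ nm (src e) + 1 := by
    intro e
    obtain ⟨x, y, _ | _⟩ := e
    · rw [src_mk, tgt_false]
      simp only [nm]
      constructor
      · apply max_le
        · have := le_max_left |x| |y + 1|; linarith
        · have h1 := le_max_right |x| |y + 1|
          have h2 : |y| ≤ |y + 1| + 1 := by
            rw [abs_le]; constructor
            · have := neg_abs_le (y + 1); linarith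
            · have := le_abs_self (y + 1); linarith
          linarith
      · apply max_le
        · have := le_max_left |x| |y|; linarith
        · have h1 := le_max_right |x| |y|
          have h2 : |y + 1| ≤ |y| + 1 := by
            rw [abs_le]; constructor
            · have := neg_abs_le y; linarith
            · have := le_abs_self y; linarith
          linarith
    · rw [src_mk, tgt_true]
      simp only [nm]
      constructor
      · apply max_le
        · have h1 := le_max_left |x + 1| |y|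
          have h2 : |x| ≤ |x + 1| + 1 := by
            rw [abs_le]; constructor
            · have := neg_abs_le (x + 1); linarith
            · have := le_abs_self (x + 1); linarith
          linarith
        · have := le_max_right |x + 1| |y|; linarith
      · apply max_le
        · have h1 := le_max_left |x| |y|
          have h2 : |x + 1| ≤ |x| + 1 := by
            rw [abs_le]; constructor
            · have := neg_abs_le x; linarith
            · have := le_abs_self x; linarith
          linarith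
        · have := le_max_right |x| |y|; linarith
  have hsub : (F ∩ Pool.Agent.H160R2.ML.annE a n) \ inE B ⊆ F ∩ Pool.Agent.H160R2.ML.annE r n := by
    rintro e ⟨⟨h1, ⟨⟨h2, h3⟩, ⟨h4, h5⟩⟩⟩, h6⟩
    have h7 : ¬ (nm (src e) ≤ r ∧ nm (tgt e) ≤ r) := by
      intro h
      apply h6
      rw [hB]
      exact h
    have h8 := hEE e
    exact ⟨h1, ⟨⟨by omega, h3⟩, ⟨by omega, h5⟩⟩⟩
  have hex : ∀ i, ∃ u, nm u = r ∧ Reach (F ∩ Pool.Agent.H160R2.ML.annE a n) (x i) u ∧
      ∃ w, nm w = n ∧ Reach (F ∩ Pool.Agent.H160R2.ML.annE r n) u w := by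
    intro i
    obtain ⟨h1, w, hw, h2⟩ := hx i
    have hxB : x i ∈ B := by
      rw [hB]
      show nm (x i) ≤ r
      rw [h1]
      exact_mod_cast har
    obtain ⟨u, hu, h3, h4⟩ := exit1 hxB h2
    have hu' : nm u ≤ r := by rw [hB] at hu; exact hu
    refine ⟨u, ?_, h3, w, hw, h4.mono hsub⟩
    rcases Relation.ReflTransGen.cases_head h4 with h5 | ⟨v, hs, _⟩
    · rw [← h5] at hw
      have : (r : ℤ) ≤ n := by exact_mod_cast hrn
      omega
    · obtain ⟨e, he, he'⟩ := hs
      obtain ⟨_, ⟨⟨h6, _⟩, ⟨h7, _⟩⟩⟩ := hsub he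
      rcases he' with ⟨h8, _⟩ | ⟨_, h8⟩
      · rw [h8] at h6; omega
      · rw [h8] at h7; omega
  choose u hu hxu hw using hex
  refine ⟨u, fun i => ⟨hu i, hw i⟩, ?_⟩
  intro i j hij h
  refine hxd i j hij ((hxu i).trans ((h.mono ?_).trans (hxu j).symm))
  rintro e ⟨h1, ⟨⟨h2, h3⟩, ⟨h4, h5⟩⟩⟩
  have h6 : (a : ℤ) ≤ r := by exact_mod_cast har
  exact ⟨h1, ⟨⟨by omega, h3⟩, ⟨by omega, h5⟩⟩⟩

/-- `k` different open clusters of the annulus `r ≤ max (|x|, |y|) ≤ n` join its two boundaries. -/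
def Clusters (k r n : ℕ) (ω : Z2.edgeSet → Bool) : Prop :=
  ∃ x : Fin k → ℤ × ℤ, (∀ i, max |(x i).1| |(x i).2| = r ∧ ∃ y : ℤ × ℤ, max |y.1| |y.2| = n ∧
    (annGraph r n ω).Reachable (x i) y) ∧ ∀ i j, i ≠ j → ¬ (annGraph r n ω).Reachable (x i) (x j)

theorem clusters_iff (k r n : ℕ) (ω : Z2.edgeSet → Bool) :
    Clusters k r n ω ↔ KArm k r n (↑(FF (boxE n) ω) : Set Edg) := by
  have h1 : (↑(FF (boxE n) ω) : Set Edg) = opn ω ∩ ↑(boxE n) := FF_coe (boxE n) ω
  have h2 : (opn ω ∩ ↑(boxE n)) ∩ Pool.Agent.H160R2.ML.annE r n =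
      opn ω ∩ Pool.Agent.H160R2.ML.annE r n := by
    rw [Set.inter_assoc, Set.inter_eq_self_of_subset_right (annE_sub r n)]
  have hG : ((↑(FF (boxE n) ω) : Set Edg)) ∩ Pool.Agent.H160R2.ML.annE r n =
      opn ω ∩ Pool.Agent.H160R2.ML.annE r n :=
    (congrArg (fun G : Set Edg => G ∩ Pool.Agent.H160R2.ML.annE r n) h1).trans h2
  have key : ∀ G : Set Edg, G ∩ Pool.Agent.H160R2.ML.annE r n =
      opn ω ∩ Pool.Agent.H160R2.ML.annE r n → (Clusters k r n ω ↔ KArm k r n G) := by
    intro G hG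
    unfold Clusters KArm
    rw [hG]
    simp only [annGraph_reach]
    rfl
  exact key _ hG

theorem clusters_law (k r n : ℕ) : crit.real {ω | Clusters k r n ω} =
    Pr (fun _ => (1 / 2 : ℝ)) (boxE n) (fun F => KArm k r n (↑F : Set Edg)) := by
  have h : {ω : Z2.edgeSet → Bool | Clusters k r n ω} =
      {ω : sqLattice.edgeSet → Bool | (fun F : Finset Edg => KArm k r n (↑F : Set Edg))
        (FF (boxE n) ω)} := by
    ext ω
    exact clusters_iff k r n ω
  rw [h]
  exact law_event hlf (boxE n) (fun F => KArm k r n (↑F : Set Edg))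

/-- **all even arm exponents in the plane** -/
theorem main (k : ℕ) (hk : 2 ≤ k) (r : ℕ) : (∃ C : ℝ, ∀ n : ℕ, 1 ≤ n →
      crit.real {ω | Clusters k r n ω} ≤ C * (n : ℝ) ^ (-((4 * (k : ℝ) ^ 2 - 1) / 12))) ∧
    (k ≤ r → ∃ c : ℝ, 0 < c ∧ ∀ n : ℕ, r ≤ n →
      c * (n : ℝ) ^ (-((4 * (k : ℝ) ^ 2 - 1) / 12)) ≤ crit.real {ω | Clusters k r n ω}) := by
  constructor
  · obtain ⟨C, _, hC⟩ := upper k hk r
    refine ⟨C, fun n hn => ?_⟩
    rw [clusters_law]
    exact hC n hn
  · intro hkr
    obtain ⟨c, hc, h⟩ := Pool.Agent.H160R2.ML.a_PL k (by omega)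
    refine ⟨c, hc, fun n hn => ?_⟩
    rw [clusters_law]
    refine (h n (by omega)).trans ?_
    apply Pr_mono
    · exact fun e => by constructor <;> norm_num
    · intro F _ hF
      exact karm_mono hkr hn hF

end TH992.E
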