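import Pool.Agent.TH992.E.Menger
import Pool.Agent.H160R2.MU.Defs

/-!
The graph of the plane cut along a slit: few vertices do not separate the slit from far vertices.
-/

set_option autoImplicit false

namespace TH992.E

open H974 H906.Cyl Finset
open Pool.Agent.H160R2.ML (nm)
open Pool.Agent.H160R2.MU (SE CL Cb sv sP)

/-- copies of the vertices -/
abbrev PB := Vtx × Bool

/-- vertices inside the slit -/
def Sl (k : ℕ) (v : Vtx) : Prop := v.1 = v.2 ∧ 0 < 2 * v.1 ∧ 2 * v.1 < k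

instance (k : ℕ) (v : Vtx) : Decidable (Sl k v) := by unfold Sl; infer_instance

/-- normal form of the copies -/
def nu (k : ℕ) (x : PB) : PB := if Sl k x.1 then x else (x.1, false)

theorem nu_fst (k : ℕ) (x : PB) : (nu k x).1 = x.1 := by
  unfold nu; split_ifs <;> rfl

theorem nu_nu (k : ℕ) (x : PB) : nu k (nu k x) = nu k x := by
  unfold nu
  by_cases h : Sl k x.1
  · simp [h]
  · simp [h]

/-- `x` and `y` are the ends of the edge `e` -/
def Ce (k : ℕ) (e : Edg) (x y : PB) : Prop :=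
  (x = nu k (src e, decide (0 ≤ dco e)) ∧ y = nu k (tgt e, decide (0 ≤ dco e))) ∨
  (y = nu k (src e, decide (0 ≤ dco e)) ∧ x = nu k (tgt e, decide (0 ≤ dco e)))

/-- neighbours -/
def cadj (k : ℕ) (x y : PB) : Prop := ∃ e, Ce k e x y

theorem cadj_symm {k : ℕ} {x y : PB} (h : cadj k x y) : cadj k y x := by
  obtain ⟨e, h⟩ := h
  exact ⟨e, h.symm⟩

/-- the norm -/
def N1 (v : Vtx) : ℕ := v.1.natAbs + v.2.natAbs

theorem Sl_N1 {k : ℕ} {v : Vtx} (h : Sl k v) : N1 v < k := by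
  obtain ⟨h1, h2, h3⟩ := h
  unfold N1
  omega

theorem nu_far {k : ℕ} {v : Vtx} (h : k ≤ N1 v) (b : Bool) : nu k (v, b) = (v, false) := by
  unfold nu
  rw [if_neg]
  intro h1
  have := Sl_N1 h1
  simp only at this
  omega

/-- joined by an edge -/
def Nb (p q : Vtx) : Prop := ∃ e : Edg, (src e = p ∧ tgt e = q) ∨ (src e = q ∧ tgt e = p)

theorem Nb.symm {p q : Vtx} (h : Nb p q) : Nb q p := by
  obtain ⟨e, he⟩ := h
  exact ⟨e, he.symm⟩

theorem nb_h (x y : ℤ) : Nb (x, y) (x + 1, y) := ⟨(x, y, true), Or.inl ⟨rfl, rfl⟩⟩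

theorem nb_v (x y : ℤ) : Nb (x, y) (x, y + 1) := ⟨(x, y, false), Or.inl ⟨rfl, rfl⟩⟩

theorem cadj_far {k : ℕ} {p q : Vtx} (hp : k ≤ N1 p) (hq : k ≤ N1 q) (h : Nb p q) :
    cadj k (p, false) (q, false) := by
  obtain ⟨e, h⟩ := h
  refine ⟨e, ?_⟩
  rcases h with ⟨h1, h2⟩ | ⟨h1, h2⟩
  · left
    rw [h1, h2, nu_far hp, nu_far hq]
    exact ⟨rfl, rfl⟩
  · right
    rw [h1, h2, nu_far hp, nu_far hq]
    exact ⟨rfl, rfl⟩

/-- sign -/
def sg (z : ℤ) : ℤ := if 0 < z then 1 else if z < 0 then -1 else 0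

theorem nb_sx {x y : ℤ} (hx : x ≠ 0) : Nb (x, y) (x - sg x, y) := by
  unfold sg
  split_ifs with h1 h2
  · have := (nb_h (x - 1) y).symm
    rw [sub_add_cancel] at this
    exact this
  · have := nb_h x y
    rw [sub_neg_eq_add]
    exact this
  · omega

theorem nb_sy {x y : ℤ} (hy : y ≠ 0) : Nb (x, y) (x, y - sg y) := by
  unfold sg
  split_ifs with h1 h2
  · have := (nb_v x (y - 1)).symm
    rw [sub_add_cancel] at this
    exact this
  · have := nb_v x y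
    rw [sub_neg_eq_add]
    exact this
  · omega

/-! ### one layer inwards -/

/-- the first kind of quarters -/
def Qa (v : Vtx) : Prop := (0 < v.1 ∧ 0 ≤ v.2) ∨ (v.1 < 0 ∧ v.2 ≤ 0)

instance (v : Vtx) : Decidable (Qa v) := by unfold Qa; infer_instance

/-- position in the quarter -/
def J (v : Vtx) : ℕ := if Qa v then v.2.natAbs else v.1.natAbs

/-- step inwards -/
def ph (g : ℕ) (v : Vtx) : Vtx :=
  if Qa v then (if v.2.natAbs < g then (v.1 - sg v.1, v.2) else (v.1, v.2 - sg v.2))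
  else (if v.1.natAbs < g then (v.1, v.2 - sg v.2) else (v.1 - sg v.1, v.2))

theorem sg_pos {z : ℤ} (h : 0 < z) : sg z = 1 := by unfold sg; rw [if_pos h]

theorem sg_neg {z : ℤ} (h : z < 0) : sg z = -1 := by
  unfold sg
  rw [if_neg (by omega), if_pos h]

theorem Qa_iff {x y : ℤ} : Qa (x, y) ↔ (0 < x ∧ 0 ≤ y) ∨ (x < 0 ∧ y ≤ 0) := Iff.rfl

theorem J_a {x y : ℤ} (h : Qa (x, y)) : J (x, y) = y.natAbs := by unfold J; rw [if_pos h]

theorem J_b {x y : ℤ} (h : ¬ Qa (x, y)) : J (x, y) = x.natAbs := by unfold J; rw [if_neg h]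

theorem ph_a1 {g : ℕ} {x y : ℤ} (h : Qa (x, y)) (h2 : y.natAbs < g) :
    ph g (x, y) = (x - sg x, y) := by
  unfold ph; rw [if_pos h, if_pos h2]

theorem ph_a2 {g : ℕ} {x y : ℤ} (h : Qa (x, y)) (h2 : ¬ y.natAbs < g) :
    ph g (x, y) = (x, y - sg y) := by
  unfold ph; rw [if_pos h, if_neg h2]

theorem ph_b1 {g : ℕ} {x y : ℤ} (h : ¬ Qa (x, y)) (h2 : x.natAbs < g) :
    ph g (x, y) = (x, y - sg y) := by
  unfold ph; rw [if_neg h, if_pos h2]

theorem ph_b2 {g : ℕ} {x y : ℤ} (h : ¬ Qa (x, y)) (h2 : ¬ x.natAbs < g) :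
    ph g (x, y) = (x - sg x, y) := by
  unfold ph; rw [if_neg h, if_neg h2]

theorem ph_nb {g m : ℕ} {v : Vtx} (hg : 1 ≤ g) (hgm : g ≤ m) (hv : N1 v = m + 1) (hJ : J v ≠ g) :
    Nb v (ph g v) ∧ N1 (ph g v) = m := by
  obtain ⟨x, y⟩ := v
  simp only [N1] at hv
  by_cases h1 : Qa (x, y)
  · rw [J_a h1] at hJ
    have h1' := Qa_iff.mp h1
    by_cases h2 : y.natAbs < g
    · rw [ph_a1 h1 h2]
      refine ⟨nb_sx (by omega), ?_⟩
      simp only [N1]
      unfold sg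
      split_ifs <;> omega
    · rw [ph_a2 h1 h2]
      refine ⟨nb_sy (by omega), ?_⟩
      simp only [N1]
      unfold sg
      split_ifs <;> omega
  · rw [J_b h1] at hJ
    have h1' := (not_congr Qa_iff).mp h1
    by_cases h2 : x.natAbs < g
    · rw [ph_b1 h1 h2]
      refine ⟨nb_sy (by omega), ?_⟩
      simp only [N1]
      unfold sg
      split_ifs <;> omega
    · rw [ph_b2 h1 h2]
      refine ⟨nb_sx (by omega), ?_⟩
      simp only [N1]
      unfold sg
      split_ifs <;> omega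

/-- the inverse step -/
def ps (g : ℕ) (w : Vtx) : Vtx :=
  if Qa w then (if w.2.natAbs < g then (w.1 + sg w.1, w.2) else (w.1, w.2 + sg w.2))
  else (if w.1.natAbs < g then (w.1, w.2 + sg w.2) else (w.1 + sg w.1, w.2))

theorem ps_a1 {g : ℕ} {x y : ℤ} (h : Qa (x, y)) (h2 : y.natAbs < g) :
    ps g (x, y) = (x + sg x, y) := by
  unfold ps; rw [if_pos h, if_pos h2]

theorem ps_a2 {g : ℕ} {x y : ℤ} (h : Qa (x, y)) (h2 : ¬ y.natAbs < g) :
    ps g (x, y) = (x, y + sg y) := by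
  unfold ps; rw [if_pos h, if_neg h2]

theorem ps_b1 {g : ℕ} {x y : ℤ} (h : ¬ Qa (x, y)) (h2 : x.natAbs < g) :
    ps g (x, y) = (x, y + sg y) := by
  unfold ps; rw [if_neg h, if_pos h2]

theorem ps_b2 {g : ℕ} {x y : ℤ} (h : ¬ Qa (x, y)) (h2 : ¬ x.natAbs < g) :
    ps g (x, y) = (x + sg x, y) := by
  unfold ps; rw [if_neg h, if_neg h2]

theorem sg_or {z : ℤ} (h : z ≠ 0) : (0 < z ∧ sg z = 1) ∨ (z < 0 ∧ sg z = -1) := by
  rcases lt_trichotomy z 0 with h1 | h1 | h1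
  · exact Or.inr ⟨h1, sg_neg h1⟩
  · exact absurd h1 h
  · exact Or.inl ⟨h1, sg_pos h1⟩

theorem ps_ph {g m : ℕ} {v : Vtx} (hg : 1 ≤ g) (hgm : g ≤ m) (hv : N1 v = m + 1) (hJ : J v ≠ g) :
    ps g (ph g v) = v := by
  obtain ⟨x, y⟩ := v
  simp only [N1] at hv
  by_cases h1 : Qa (x, y)
  · rw [J_a h1] at hJ
    have h1' := Qa_iff.mp h1
    by_cases h2 : y.natAbs < g
    · rw [ph_a1 h1 h2]
      have hx : x ≠ 0 := by omega
      rcases sg_or hx with ⟨h3, h4⟩ | ⟨h3, h4⟩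
      · have hw : Qa (x - sg x, y) := Qa_iff.mpr (by rw [h4]; omega)
        rw [ps_a1 hw h2, h4, sg_pos (by omega)]
        ext <;> simp
      · have hw : Qa (x - sg x, y) := Qa_iff.mpr (by rw [h4]; omega)
        rw [ps_a1 hw h2, h4, sg_neg (by omega)]
        ext <;> simp
    · rw [ph_a2 h1 h2]
      have hy : y ≠ 0 := by omega
      rcases sg_or hy with ⟨h3, h4⟩ | ⟨h3, h4⟩
      · have hw : Qa (x, y - sg y) := Qa_iff.mpr (by rw [h4]; omega)
        rw [ps_a2 hw (by rw [h4]; omega), h4, sg_pos (by omega)]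
        ext <;> simp
      · have hw : Qa (x, y - sg y) := Qa_iff.mpr (by rw [h4]; omega)
        rw [ps_a2 hw (by rw [h4]; omega), h4, sg_neg (by omega)]
        ext <;> simp
  · rw [J_b h1] at hJ
    have h1' := (not_congr Qa_iff).mp h1
    by_cases h2 : x.natAbs < g
    · rw [ph_b1 h1 h2]
      have hy : y ≠ 0 := by omega
      rcases sg_or hy with ⟨h3, h4⟩ | ⟨h3, h4⟩
      · have hw : ¬ Qa (x, y - sg y) := (not_congr Qa_iff).mpr (by rw [h4]; omega)
        rw [ps_b1 hw h2, h4, sg_pos (by omega)]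
        ext <;> simp
      · have hw : ¬ Qa (x, y - sg y) := (not_congr Qa_iff).mpr (by rw [h4]; omega)
        rw [ps_b1 hw h2, h4, sg_neg (by omega)]
        ext <;> simp
    · rw [ph_b2 h1 h2]
      have hx : x ≠ 0 := by omega
      rcases sg_or hx with ⟨h3, h4⟩ | ⟨h3, h4⟩
      · have hw : ¬ Qa (x - sg x, y) := (not_congr Qa_iff).mpr (by rw [h4]; omega)
        rw [ps_b2 hw (by rw [h4]; omega), h4, sg_pos (by omega)]
        ext <;> simp
      · have hw : ¬ Qa (x - sg x, y) := (not_congr Qa_iff).mpr (by rw [h4]; omega)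
        rw [ps_b2 hw (by rw [h4]; omega), h4, sg_neg (by omega)]
        ext <;> simp

/-- a gap -/
theorem gap {m : ℕ} (A : Finset Vtx) (hA : A.card < m) : ∃ g, 1 ≤ g ∧ g ≤ m ∧ ∀ v ∈ A, J v ≠ g := by
  have h1 : (A.image J).card < (Finset.Icc 1 m).card := by
    rw [Nat.card_Icc]
    exact lt_of_le_of_lt card_image_le (by omega)
  obtain ⟨g, hg, hg'⟩ := exists_mem_notMem_of_card_lt_card h1
  rw [mem_Icc] at hg
  exact ⟨g, hg.1, hg.2, fun v hv h => hg' (mem_image.mpr ⟨v, hv, h⟩)⟩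

end TH992.E
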