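import Pool.Agent.TH992.E.Fin
import Pool.Agent.H160R2.MU.T_MON

/-!
The lower bound, uniform in the inner radius.
-/

set_option autoImplicit false

namespace TH992.E

open H974 H906.Cyl Finset
open MeasureTheory
open Pool.Agent.H160R2.ML (nm KArm)
open Pool.Agent.H160R2.MU (SE CL Cb sv sP)
open Pool.Agent.H160R2.MU.TMON (nm_tgt_le nm_src_le sv_nm cb_congr se_mono se_local box_mono mem_box)
open Pool.Agent.H160R2.ML.TFIN (Z2 crit annGraph annGraph_reach annE_sub)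

/-- the annulus -/
def An (r n : ℤ) : Set Edg := Pool.Agent.H160R2.ML.annE r n

theorem reach_cb {k : ℕ} {R n : ℤ} (hkR : (k : ℤ) ≤ R) {G : Set Edg} {u v : Vtx}
    (h : Reach (G ∩ An R n) u v) : Cb k n G (u, false) (v, false) := by
  have hid : ∀ w : Vtx, R ≤ nm w → nm w ≤ n → ∀ b : Bool, Cb k n G (w, b) (w, false) := by
    intro w h1 h2 b
    cases b
    · exact Relation.EqvGen.refl _
    · refine Relation.EqvGen.symm _ _ (Relation.EqvGen.rel _ _ (CL.idn w h2 ?_))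
      rintro ⟨h3, h4, h5⟩
      have h6 : nm w = w.1 := by
        unfold nm
        rw [← h3, max_self, abs_of_nonneg (by omega)]
      omega
  induction h with
  | refl => exact Relation.EqvGen.refl _
  | @tail a b _ hs ih =>
    obtain ⟨e, ⟨he, ⟨⟨h1, h2⟩, ⟨h3, h4⟩⟩⟩, he'⟩ := hs
    have hl : Cb k n G (src e, decide (0 ≤ dco e)) (tgt e, decide (0 ≤ dco e)) :=
      Relation.EqvGen.rel _ _ (CL.edge e he h2 h4)
    have hl2 : Cb k n G (src e, false) (tgt e, false) :=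
      Relation.EqvGen.trans _ _ _ (Relation.EqvGen.symm _ _ (hid _ h1 h2 _))
        (Relation.EqvGen.trans _ _ _ hl (hid _ h3 h4 _))
    rcases he' with ⟨h5, h6⟩ | ⟨h5, h6⟩
    · rw [h5, h6] at hl2
      exact Relation.EqvGen.trans _ _ _ ih hl2
    · rw [h5, h6] at hl2
      exact Relation.EqvGen.trans _ _ _ ih (Relation.EqvGen.symm _ _ hl2)

theorem se_karm {k R n : ℕ} (hk : 2 ≤ k) (hkR : k ≤ R) (hRn : R ≤ n) {G : Set Edg}
    (h : SE k (n : ℤ) G) : KArm k R n G := by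
  have hkR' : (k : ℤ) ≤ R := by exact_mod_cast hkR
  have hRn' : (R : ℤ) ≤ n := by exact_mod_cast hRn
  have key : ∀ i, i < 2 * k → i % 2 = 0 → ∃ u : Vtx, nm u = R ∧ (∃ γ, Cb k n G (sv k i) (u, γ)) ∧
      ∃ y, nm y = n ∧ Reach (G ∩ An R n) u y := by
    intro i hi hi2
    obtain ⟨y, β, hy, hc⟩ := h.2 i hi hi2
    obtain ⟨Q, hQ⟩ : ∃ Q : Vtx × Bool → Prop, Q = fun p => Cb k n G (sv k i) p ∧
        (nm p.1 < R ∨ ∃ u : Vtx, nm u = R ∧ (∃ γ, Cb k n G (sv k i) (u, γ)) ∧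
          Reach (G ∩ An R n) u p.1) := ⟨_, rfl⟩
    have hstep : ∀ (e : Edg) (a b : Vtx) (β : Bool), e ∈ G → nm (src e) ≤ n → nm (tgt e) ≤ n →
        ((src e = a ∧ tgt e = b) ∨ (src e = b ∧ tgt e = a)) →
        Cb k n G (sv k i) (b, β) → Q (a, β) → Q (b, β) := by
      intro e a b β he h1 h2 hab hb hq
      rw [hQ] at hq ⊢
      obtain ⟨hq1, hq2⟩ := hq
      refine ⟨hb, ?_⟩
      by_cases hbR : nm b < R
      · exact Or.inl hbR
      right
      by_cases haR : nm a < R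
      · have h3 := nm_tgt_le e
        have h4 := nm_src_le e
        have hbe : nm b = R := by
          rcases hab with ⟨h5, h6⟩ | ⟨h5, h6⟩
          · rw [h5, h6] at h3; omega
          · rw [h5, h6] at h4; omega
        exact ⟨b, hbe, ⟨β, hb⟩, Reach.refl _ _⟩
      · rcases hq2 with hq2 | ⟨u, hu, hγ, hr⟩
        · exact absurd hq2 haR
        · refine ⟨u, hu, hγ, hr.trans (Adj.reach ⟨e, ⟨he, ?_⟩, hab⟩)⟩
          have haR' : (R : ℤ) ≤ nm a := by
            have : ¬ nm a < R := haR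
            omega
          have hbR' : (R : ℤ) ≤ nm b := by
            have : ¬ nm b < R := hbR
            omega
          rcases hab with ⟨h5, h6⟩ | ⟨h5, h6⟩
          · rw [← h5] at haR'; rw [← h6] at hbR'
            exact ⟨⟨haR', h1⟩, ⟨hbR', h2⟩⟩
          · rw [← h6] at haR'; rw [← h5] at hbR'
            exact ⟨⟨hbR', h1⟩, ⟨haR', h2⟩⟩
    have hinv : ∀ a b, Cb k n G a b → (Q a ↔ Q b) := by
      intro a b hab
      induction hab with
      | rel a b hab =>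
        cases hab with
        | edge e he h1 h2 =>
          have hl : Cb k n G (src e, decide (0 ≤ dco e)) (tgt e, decide (0 ≤ dco e)) :=
            Relation.EqvGen.rel _ _ (CL.edge e he h1 h2)
          constructor
          · intro hq
            have hq0 := hq
            rw [hQ] at hq0
            exact hstep e _ _ _ he h1 h2 (Or.inl ⟨rfl, rfl⟩)
              (Relation.EqvGen.trans _ _ _ hq0.1 hl) hq
          · intro hq
            have hq0 := hq
            rw [hQ] at hq0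
            exact hstep e _ _ _ he h1 h2 (Or.inr ⟨rfl, rfl⟩)
              (Relation.EqvGen.trans _ _ _ hq0.1 (Relation.EqvGen.symm _ _ hl)) hq
        | idn v h1 h2 =>
          have hl : Cb k n G (v, false) (v, true) := Relation.EqvGen.rel _ _ (CL.idn v h1 h2)
          rw [hQ]
          constructor
          · rintro ⟨h3, h4⟩
            exact ⟨Relation.EqvGen.trans _ _ _ h3 hl, h4⟩
          · rintro ⟨h3, h4⟩
            exact ⟨Relation.EqvGen.trans _ _ _ h3 (Relation.EqvGen.symm _ _ hl), h4⟩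
      | refl a => exact Iff.rfl
      | symm a b _ ih => exact ih.symm
      | trans a b c _ _ ih1 ih2 => exact ih1.trans ih2
    have h0 : Q (sv k i) := by
      rw [hQ]
      refine ⟨Relation.EqvGen.refl _, Or.inl ?_⟩
      have := sv_nm hk hi
      omega
    have h1 := (hinv _ _ hc).mp h0
    rw [hQ] at h1
    obtain ⟨_, h2⟩ := h1
    rcases h2 with h2 | ⟨u, hu, hγ, hr⟩
    · have h3 : nm y < R := h2
      omega
    · exact ⟨u, hu, hγ, y, hy, hr⟩
  have key' : ∀ i : Fin k, ∃ u : Vtx, nm u = R ∧ (∃ γ, Cb k n G (sv k (2 * (i : ℕ))) (u, γ)) ∧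
      ∃ y, nm y = n ∧ Reach (G ∩ An R n) u y := fun i => key (2 * (i : ℕ)) (by omega) (by omega)
  choose u hu hγ hy using key'
  refine ⟨u, fun i => ⟨hu i, hy i⟩, ?_⟩
  intro i j hij hr
  obtain ⟨γ, h1⟩ := hγ i
  obtain ⟨γ', h2⟩ := hγ j
  have hr' : Reach (G ∩ An R n) (u i) (u j) := hr
  have h3 := reach_cb (k := k) hkR' hr'
  have hid : ∀ w : Vtx, nm w = R → ∀ b : Bool, Cb k n G (w, b) (w, false) := by
    intro w h1 b
    cases b
    · exact Relation.EqvGen.refl _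
    · refine Relation.EqvGen.symm _ _ (Relation.EqvGen.rel _ _ (CL.idn w (by omega) ?_))
      rintro ⟨h3, h4, h5⟩
      have h6 : nm w = w.1 := by
        unfold nm
        rw [← h3, max_self, abs_of_nonneg (by omega)]
      omega
  refine h.1 (2 * (i : ℕ)) (2 * (j : ℕ)) (by omega) (by omega) (by omega) (by omega) ?_ ?_
  · intro h4
    apply hij
    apply Fin.ext
    omega
  · exact Relation.EqvGen.trans _ _ _ h1 (Relation.EqvGen.trans _ _ _ (hid _ (hu i) γ)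
      (Relation.EqvGen.trans _ _ _ h3 (Relation.EqvGen.trans _ _ _
        (Relation.EqvGen.symm _ _ (hid _ (hu j) γ')) (Relation.EqvGen.symm _ _ h2))))

/-- quasi-multiplicativity, the easy half -/
theorem sP_le {k r n : ℕ} (hk : 2 ≤ k) (hkr : k ≤ r) (hrn : r + 1 ≤ n) :
    sP k n ≤ sP k r *
      Pr (fun _ => (1 / 2 : ℝ)) (boxE n) (fun F => KArm k ((r + 1 : ℕ)) n (↑F : Set Edg)) := by
  have ok : Ok (fun _ : Edg => (1 / 2 : ℝ)) := fun _ => ⟨by norm_num, by norm_num⟩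
  have hb : boxE r ⊆ boxE n := box_mono (by omega)
  have h1 : sP k n ≤ Pr (fun _ => (1 / 2 : ℝ)) (boxE n)
      (fun F => SE k (r : ℤ) (↑F : Set Edg) ∧ KArm k ((r + 1 : ℕ)) n (↑F : Set Edg)) := by
    unfold sP
    apply Pr_mono ok
    intro F _ h
    exact ⟨se_mono hk hkr (by omega) h, se_karm hk (by omega) hrn h⟩
  rw [Pr_indep hb (Finset.sdiff_subset (s := boxE n) (t := boxE r)) Finset.disjoint_sdiff
    (fun F _ => se_local F) ?_] at h1
  · have h2 : Pr (fun _ => (1 / 2 : ℝ)) (boxE n) (fun F => SE k (r : ℤ) (↑F : Set Edg)) =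
        sP k r := Pr_local hb (fun F _ => se_local F)
    rw [h2] at h1
    exact h1
  · intro F hF
    have h3 : (↑F : Set Edg) ∩ Pool.Agent.H160R2.ML.annE ((r + 1 : ℕ) : ℤ) n =
        (↑(F ∩ (boxE n \ boxE r)) : Set Edg) ∩
          Pool.Agent.H160R2.ML.annE ((r + 1 : ℕ) : ℤ) n := by
      ext e
      constructor
      · rintro ⟨h4, h5⟩
        refine ⟨?_, h5⟩
        rw [Finset.mem_coe, Finset.mem_inter, Finset.mem_sdiff]
        refine ⟨h4, hF h4, ?_⟩
        intro h6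
        obtain ⟨h7, _⟩ := bx_box.mpr h6
        have h8 := h5.1.1
        push_cast at h8
        omega
      · rintro ⟨h4, h5⟩
        rw [Finset.mem_coe, Finset.mem_inter] at h4
        exact ⟨h4.1, h5⟩
    unfold KArm
    rw [h3]

/-- **the lower bound**, uniform in the inner radius -/
theorem lower (k : ℕ) (hk : 2 ≤ k) : ∃ c : ℝ, 0 < c ∧ ∀ r n : ℕ, k ≤ r → r ≤ n →
    c * ((r : ℝ) / n) ^ ((4 * (k : ℝ) ^ 2 - 1) / 12) ≤
      Pr (fun _ => (1 / 2 : ℝ)) (boxE n) (fun F => KArm k r n (↑F : Set Edg)) := by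
  obtain ⟨C, hC, hU⟩ := Pool.Agent.H160R2.MU.a_UB k hk
  obtain ⟨c, hc, hL⟩ := Pool.Agent.H160R2.MU.a_LB k hk
  obtain ⟨c1, hc1, hP⟩ := Pool.Agent.H160R2.ML.a_PL k (by omega)
  obtain ⟨a, ha⟩ : ∃ a : ℝ, a = (4 * (k : ℝ) ^ 2 - 1) / 12 := ⟨_, rfl⟩
  have hk2 : (2 : ℝ) ≤ k := by exact_mod_cast hk
  have ha0 : 0 < a := by rw [ha]; nlinarith
  rw [← ha] at hU hL hP ⊢
  have hk0 : (0 : ℝ) < k := by linarith
  have hka : (0 : ℝ) < (k : ℝ) ^ a := Real.rpow_pos_of_pos hk0 _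
  have h2a : (0 : ℝ) < (2 : ℝ) ^ a := Real.rpow_pos_of_pos (by norm_num) _
  refine ⟨min (c1 / (k : ℝ) ^ a) (c / (C * 2 ^ a)), by positivity, ?_⟩
  intro r n hkr hrn
  have hr0 : (0 : ℝ) < r := by
    have : 0 < r := by omega
    exact_mod_cast this
  have hn0 : (0 : ℝ) < n := by
    have : 0 < n := by omega
    exact_mod_cast this
  have hra : (0 : ℝ) < (r : ℝ) ^ a := Real.rpow_pos_of_pos hr0 _
  have hna : (0 : ℝ) < (n : ℝ) ^ a := Real.rpow_pos_of_pos hn0 _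
  have hdiv : ((r : ℝ) / n) ^ a = (r : ℝ) ^ a * (n : ℝ) ^ (-a) := by
    rw [Real.div_rpow hr0.le hn0.le, Real.rpow_neg hn0.le, div_eq_mul_inv]
  have hnn : 0 < (n : ℝ) ^ (-a) := Real.rpow_pos_of_pos hn0 _
  rw [hdiv]
  rcases Nat.lt_or_ge k r with hlt | hge
  · obtain ⟨r', rfl⟩ : ∃ r', r = r' + 1 := ⟨r - 1, by omega⟩
    have h1 := sP_le hk (by omega : k ≤ r') hrn
    have h2 := hU r' (by omega)
    have h3 := hL n (by omega)
    set P := Pr (fun _ => (1 / 2 : ℝ)) (boxE n) (fun F => KArm k ((r' + 1 : ℕ)) n (↑F : Set Edg))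
      with hPdef
    have ok : Ok (fun _ : Edg => (1 / 2 : ℝ)) := fun _ => ⟨by norm_num, by norm_num⟩
    have hP0 : 0 ≤ P := Pr_nonneg ok _ _
    have hr'0 : (0 : ℝ) < r' := by
      have : 0 < r' := by omega
      exact_mod_cast this
    have h4 : (r' : ℝ) ^ (-a) ≤ 2 ^ a * ((r' + 1 : ℕ) : ℝ) ^ (-a) := by
      rw [Real.rpow_neg hr'0.le, Real.rpow_neg hr0.le]
      rw [inv_le_iff_one_le_mul₀ (Real.rpow_pos_of_pos hr'0 _)]
      have h5 : ((r' + 1 : ℕ) : ℝ) ^ a ≤ (2 * (r' : ℝ)) ^ a := by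
        apply Real.rpow_le_rpow hr0.le _ ha0.le
        push_cast
        have : (1 : ℝ) ≤ r' := by exact_mod_cast (by omega : 1 ≤ r')
        linarith
      rw [Real.mul_rpow (by norm_num) hr'0.le] at h5
      have h6 : ((r' + 1 : ℕ) : ℝ) ^ a * (((r' + 1 : ℕ) : ℝ) ^ a)⁻¹ = 1 :=
        mul_inv_cancel₀ hra.ne'
      have h7 := mul_le_mul_of_nonneg_right h5 (inv_nonneg.mpr hra.le)
      rw [h6] at h7
      nlinarith
    have h5 : c * (n : ℝ) ^ (-a) ≤ C * (2 ^ a * ((r' + 1 : ℕ) : ℝ) ^ (-a)) * P := by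
      refine h3.trans (h1.trans ?_)
      apply mul_le_mul_of_nonneg_right _ hP0
      exact h2.trans (mul_le_mul_of_nonneg_left h4 hC.le)
    have h6 : ((r' + 1 : ℕ) : ℝ) ^ (-a) * ((r' + 1 : ℕ) : ℝ) ^ a = 1 := by
      rw [← Real.rpow_add hr0]; simp
    have h7 := mul_le_mul_of_nonneg_right h5 hra.le
    have h8 : C * (2 ^ a * ((r' + 1 : ℕ) : ℝ) ^ (-a)) * P * ((r' + 1 : ℕ) : ℝ) ^ a =
        (C * 2 ^ a) * P := by
      calc _ = C * 2 ^ a * P * (((r' + 1 : ℕ) : ℝ) ^ (-a) * ((r' + 1 : ℕ) : ℝ) ^ a) := by ring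
        _ = _ := by rw [h6, mul_one]
    rw [h8] at h7
    have hCa : 0 < C * 2 ^ a := by positivity
    have h9 : c / (C * 2 ^ a) * (((r' + 1 : ℕ) : ℝ) ^ a * (n : ℝ) ^ (-a)) ≤ P := by
      rw [div_mul_eq_mul_div, div_le_iff₀ hCa]
      nlinarith
    refine le_trans ?_ h9
    apply mul_le_mul_of_nonneg_right (min_le_right _ _) (by positivity)
  · have hkr' : r = k := by omega
    subst hkr'
    have h1 := hP n hrn
    refine le_trans ?_ h1
    calc min (c1 / (r : ℝ) ^ a) (c / (C * 2 ^ a)) * ((r : ℝ) ^ a * (n : ℝ) ^ (-a))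
        ≤ c1 / (r : ℝ) ^ a * ((r : ℝ) ^ a * (n : ℝ) ^ (-a)) :=
          mul_le_mul_of_nonneg_right (min_le_left _ _) (by positivity)
      _ = c1 * (n : ℝ) ^ (-a) := by
          field_simp

/-- **all even arm exponents in the plane** -/
theorem main2 (k : ℕ) (hk : 2 ≤ k) : (∀ r : ℕ, ∃ C : ℝ, ∀ n : ℕ, 1 ≤ n →
      crit.real {ω | Clusters k r n ω} ≤ C * (n : ℝ) ^ (-((4 * (k : ℝ) ^ 2 - 1) / 12))) ∧
    (∃ c : ℝ, 0 < c ∧ ∀ r n : ℕ, k ≤ r → r ≤ n →
      c * ((r : ℝ) / n) ^ ((4 * (k : ℝ) ^ 2 - 1) / 12) ≤ crit.real {ω | Clusters k r n ω}) := by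
  refine ⟨fun r => (main k hk r).1, ?_⟩
  obtain ⟨c, hc, h⟩ := lower k hk
  refine ⟨c, hc, fun r n hkr hrn => ?_⟩
  rw [clusters_law]
  exact h r n hkr hrn

end TH992.E
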