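import Mathlib

/-!
Disjoint paths in finite graphs (Menger), from Hall's theorem.
-/

set_option autoImplicit false

namespace TH992.E

open Finset

variable {V : Type*} [DecidableEq V]

/-- The successor function of a linkage. -/
theorem exists_succ (W T S : Finset V) (adj : V → V → Prop)
    (hT : T ⊆ W)
    (hsep : ∀ X : Finset V, X.card < T.card → ∃ t ∈ T, t ∉ X ∧ ∃ s ∈ S,
      Relation.ReflTransGen (fun a b => adj a b ∧ b ∈ W ∧ b ∉ X) t s) :
    ∃ σ : V → V, (∀ u ∈ W, u ∉ S → σ u ∈ W ∧ σ u ∉ T ∧ (σ u = u ∨ adj u (σ u))) ∧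
      ∀ u ∈ W, u ∉ S → ∀ v ∈ W, v ∉ S → σ u = σ v → u = v := by
  classical
  let t : {u // u ∈ W \ S} → Finset V := fun u => (W.filter (fun w => w = u.1 ∨ adj u.1 w)) \ T
  have hall : ∀ A : Finset {u // u ∈ W \ S}, A.card ≤ (A.biUnion t).card := by
    intro A
    by_contra hcon
    push Not at hcon
    obtain ⟨A', hA'⟩ : ∃ A' : Finset V, A' = A.map (Function.Embedding.subtype _) := ⟨_, rfl⟩
    have hA'c : A'.card = A.card := by rw [hA', card_map]
    have hA'm : ∀ u, u ∈ A' ↔ ∃ h : u ∈ W \ S, (⟨u, h⟩ : {u // u ∈ W \ S}) ∈ A := by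
      intro u
      rw [hA', mem_map]
      constructor
      · rintro ⟨⟨v, hv⟩, h1, rfl⟩
        exact ⟨hv, h1⟩
      · rintro ⟨h, h1⟩
        exact ⟨⟨u, h⟩, h1, rfl⟩
    obtain ⟨N, hN⟩ : ∃ N : Finset V, N = A.biUnion t := ⟨_, rfl⟩
    rw [← hN] at hcon
    have hNm : ∀ w, w ∈ N ↔ w ∈ W ∧ w ∉ T ∧ ∃ u ∈ A', w = u ∨ adj u w := by
      intro w
      rw [hN, mem_biUnion]
      constructor
      · rintro ⟨⟨u, hu⟩, h1, h2⟩
        simp only [t, mem_sdiff, mem_filter] at h2
        exact ⟨h2.1.1, h2.2, u, (hA'm u).mpr ⟨hu, h1⟩, h2.1.2⟩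
      · rintro ⟨h1, h2, u, hu, h3⟩
        obtain ⟨hu', hu⟩ := (hA'm u).mp hu
        refine ⟨⟨u, hu'⟩, hu, ?_⟩
        simp only [t, mem_sdiff, mem_filter]
        exact ⟨⟨h1, h3⟩, h2⟩
    have hA'W : ∀ u ∈ A', u ∈ W ∧ u ∉ S := by
      intro u hu
      obtain ⟨h1, _⟩ := (hA'm u).mp hu
      exact mem_sdiff.mp h1
    have hAN : A' \ T ⊆ N := by
      intro u hu
      rw [mem_sdiff] at hu
      exact (hNm u).mpr ⟨(hA'W u hu.1).1, hu.2, u, hu.1, Or.inl rfl⟩
    have hNA : N ∩ A' = A' \ T := by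
      ext u
      rw [mem_inter, mem_sdiff]
      constructor
      · rintro ⟨h1, h2⟩
        exact ⟨h2, ((hNm u).mp h1).2.1⟩
      · rintro ⟨h1, h2⟩
        exact ⟨hAN (mem_sdiff.mpr ⟨h1, h2⟩), h1⟩
    have hc1 : (N \ A').card + (A' \ T).card = N.card := by
      rw [← hNA]
      exact card_sdiff_add_card_inter N A'
    have hc2 : (A' \ T).card + (A' ∩ T).card = A'.card := card_sdiff_add_card_inter A' T
    have hc3 : (T \ A').card + (T ∩ A').card = T.card := card_sdiff_add_card_inter T A'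
    have hc4 : (T ∩ A').card = (A' ∩ T).card := by rw [inter_comm]
    have hX : ((N \ A') ∪ (T \ A')).card < T.card := by
      refine lt_of_le_of_lt (card_union_le _ _) ?_
      omega
    obtain ⟨t0, ht0, ht0X, s, hs, hpath⟩ := hsep _ hX
    have ht0A : t0 ∈ A' := by
      by_contra hcon2
      exact ht0X (mem_union_right _ (mem_sdiff.mpr ⟨ht0, hcon2⟩))
    have key : s ∈ A' := by
      clear hs
      induction hpath with
      | refl => exact ht0A
      | @tail a b _ hab ih =>
        obtain ⟨h1, h2, h3⟩ := hab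
        by_cases hbT : b ∈ T
        · by_contra hcon2
          exact h3 (mem_union_right _ (mem_sdiff.mpr ⟨hbT, hcon2⟩))
        · by_contra hcon2
          refine h3 (mem_union_left _ (mem_sdiff.mpr ⟨?_, hcon2⟩))
          exact (hNm b).mpr ⟨h2, hbT, a, ih, Or.inr h1⟩
    exact (hA'W s key).2 hs
  obtain ⟨f, hf1, hf2⟩ := (Finset.all_card_le_biUnion_card_iff_exists_injective t).mp hall
  refine ⟨fun u => if h : u ∈ W \ S then f ⟨u, h⟩ else u, ?_, ?_⟩
  · intro u hu huS
    have h : u ∈ W \ S := mem_sdiff.mpr ⟨hu, huS⟩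
    simp only [h, dif_pos]
    have h2 := hf2 ⟨u, h⟩
    simp only [t, mem_sdiff, mem_filter] at h2
    exact ⟨h2.1.1, h2.2, h2.1.2⟩
  · intro u hu huS v hv hvS huv
    have h : u ∈ W \ S := mem_sdiff.mpr ⟨hu, huS⟩
    have h' : v ∈ W \ S := mem_sdiff.mpr ⟨hv, hvS⟩
    simp only [h, h', dif_pos] at huv
    exact congrArg Subtype.val (hf1 huv)

/-- **Linkages.** If no set of fewer than `|T|` vertices separates `T` from `S`, `|S| = |T|`, then
there are disjoint paths from all the vertices of `T` to all the vertices of `S`; `R` is the set of the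
steps, `root` the starting point. -/
theorem linkage (W T S : Finset V) (adj : V → V → Prop)
    (hT : T ⊆ W) (hc : S.card = T.card)
    (hsep : ∀ X : Finset V, X.card < T.card → ∃ t ∈ T, t ∉ X ∧ ∃ s ∈ S,
      Relation.ReflTransGen (fun a b => adj a b ∧ b ∈ W ∧ b ∉ X) t s) :
    ∃ (R : V → V → Prop) (root : V → V), (∀ u v, R u v → adj u v ∧ u ∈ W ∧ v ∈ W) ∧
      (∀ u v, R u v → root u = root v) ∧ (∀ u, u ∉ W → root u = u) ∧ (∀ t ∈ T, root t = t) ∧
      (∀ s ∈ S, root s ∈ T ∧ Relation.ReflTransGen R (root s) s) ∧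
      ∀ s ∈ S, ∀ s' ∈ S, root s = root s' → s = s' := by
  classical
  obtain ⟨σ, h1, h2⟩ := exists_succ W T S adj hT hsep
  obtain ⟨orb, horb⟩ : ∃ orb : V → V → Prop,
      orb = fun t u => ∃ m : ℕ, σ^[m] t = u ∧ ∀ j < m, σ^[j] t ∉ S := ⟨_, rfl⟩
  -- members of the orbits
  have hmem : ∀ t ∈ T, ∀ m : ℕ, (∀ j < m, σ^[j] t ∉ S) → σ^[m] t ∈ W := by
    intro t ht m
    induction m with
    | zero => intro _; exact hT ht
    | succ m ih =>
      intro h
      rw [Function.iterate_succ_apply']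
      exact (h1 _ (ih fun j hj => h j (by omega)) (h m (by omega))).1
  -- uniqueness of the root
  have huniq : ∀ t ∈ T, ∀ t' ∈ T, ∀ m m' : ℕ, (∀ j < m, σ^[j] t ∉ S) →
      (∀ j < m', σ^[j] t' ∉ S) → σ^[m] t = σ^[m'] t' → t = t' ∧ m = m' := by
    intro t ht t' ht' m
    induction m with
    | zero =>
      intro m' _ h' he
      rcases m' with _ | m'
      · exact ⟨he, rfl⟩
      · exfalso
        rw [Function.iterate_succ_apply', Function.iterate_zero, id] at he
        have h3 := (h1 _ (hmem t' ht' m' fun j hj => h' j (by omega)) (h' m' (by omega))).2.1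
        exact h3 (he ▸ ht)
    | succ m ih =>
      intro m' h h' he
      rcases m' with _ | m'
      · exfalso
        rw [Function.iterate_succ_apply', Function.iterate_zero, id] at he
        have h3 := (h1 _ (hmem t ht m fun j hj => h j (by omega)) (h m (by omega))).2.1
        exact h3 (he ▸ ht')
      · rw [Function.iterate_succ_apply', Function.iterate_succ_apply'] at he
        have h3 := h2 _ (hmem t ht m fun j hj => h j (by omega)) (h m (by omega))
          _ (hmem t' ht' m' fun j hj => h' j (by omega)) (h' m' (by omega)) he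
        obtain ⟨h4, h5⟩ := ih m' (fun j hj => h j (by omega)) (fun j hj => h' j (by omega)) h3
        exact ⟨h4, by rw [h5]⟩
  -- termination
  have hterm : ∀ t ∈ T, ∃ s ∈ S, orb t s := by
    intro t ht
    by_contra hcon
    push Not at hcon
    have hnev : ∀ m : ℕ, ∀ j < m, σ^[j] t ∉ S := by
      intro m
      induction m with
      | zero => intro j hj; exact absurd hj (Nat.not_lt_zero j)
      | succ m ih =>
        intro j hj hS
        rcases Nat.lt_succ_iff_lt_or_eq.mp hj with h | h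
        · exact ih j h hS
        · subst h
          refine hcon _ hS ?_
          rw [horb]
          exact ⟨j, rfl, ih⟩
    have hinj : Function.Injective (fun m : ℕ => σ^[m] t) := by
      intro m m' he
      exact (huniq t ht t ht m m' (hnev m) (hnev m') he).2
    have hfin : (Set.range (fun m : ℕ => σ^[m] t)).Finite :=
      (Finset.finite_toSet W).subset (by
        rintro _ ⟨m, rfl⟩
        exact hmem t ht m (hnev m))
    exact (Set.infinite_range_of_injective hinj) hfin
  -- no fixed points on the orbits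
  have hne : ∀ t ∈ T, ∀ m : ℕ, (∀ j < m + 1, σ^[j] t ∉ S) → σ (σ^[m] t) ≠ σ^[m] t := by
    intro t ht m h he
    have h3 : σ^[m + 1] t = σ^[m] t := by rw [Function.iterate_succ_apply', he]
    have := (huniq t ht t ht (m + 1) m h (fun j hj => h j (by omega)) h3).2
    omega
  obtain ⟨root, hroot⟩ : ∃ root : V → V,
      root = fun u => if h : ∃ t ∈ T, orb t u then h.choose else u := ⟨_, rfl⟩
  have hroot1 : ∀ t ∈ T, ∀ u, orb t u → root u = t := by
    intro t ht u hu
    have h : ∃ t ∈ T, orb t u := ⟨t, ht, hu⟩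
    have h3 : root u = h.choose := by rw [hroot]; simp only [h, dif_pos]
    have h4 := h.choose_spec
    rw [h3]
    obtain ⟨w, hw⟩ : ∃ w, w = h.choose := ⟨_, rfl⟩
    rw [← hw] at h4 ⊢
    rw [horb] at h4 hu
    obtain ⟨m, hm, hm'⟩ := hu
    obtain ⟨h5, m', hm1, hm1'⟩ := h4
    exact ((huniq _ h5 _ ht m' m hm1' hm' (hm1.trans hm.symm)).1)
  have hroot2 : ∀ u, (¬ ∃ t ∈ T, orb t u) → root u = u := by
    intro u h
    rw [hroot]
    simp only [h, dif_neg, not_false_eq_true]
  refine ⟨fun u v => (∃ t ∈ T, orb t u) ∧ u ∉ S ∧ v = σ u, root, ?_, ?_, ?_, ?_, ?_, ?_⟩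
  · rintro u v ⟨⟨t, ht, hu⟩, huS, rfl⟩
    rw [horb] at hu
    obtain ⟨m, hm, hm'⟩ := hu
    have huW : u ∈ W := hm ▸ hmem t ht m hm'
    have hall' : ∀ j < m + 1, σ^[j] t ∉ S := by
      intro j hj
      rcases Nat.lt_succ_iff_lt_or_eq.mp hj with h | h
      · exact hm' j h
      · rw [h, hm]; exact huS
    have h3 := h1 u huW huS
    have h4 := hne t ht m hall'
    rw [hm] at h4
    exact ⟨h3.2.2.resolve_left h4, huW, h3.1⟩
  · rintro u v ⟨⟨t, ht, hu⟩, huS, rfl⟩
    rw [hroot1 t ht u hu]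
    symm
    apply hroot1 t ht
    rw [horb] at hu ⊢
    obtain ⟨m, hm, hm'⟩ := hu
    refine ⟨m + 1, by rw [Function.iterate_succ_apply', hm], ?_⟩
    intro j hj
    rcases Nat.lt_succ_iff_lt_or_eq.mp hj with h | h
    · exact hm' j h
    · rw [h, hm]; exact huS
  · intro u hu
    apply hroot2
    rintro ⟨t, ht, h⟩
    rw [horb] at h
    obtain ⟨m, hm, hm'⟩ := h
    exact hu (hm ▸ hmem t ht m hm')
  · intro t ht
    apply hroot1 t ht
    rw [horb]
    exact ⟨0, rfl, fun j hj => absurd hj (Nat.not_lt_zero j)⟩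
  · -- every vertex of `S` is reached
    choose e he1 he2 using hterm
    have hsurj : ∀ s ∈ S, ∃ t, ∃ ht : t ∈ T, s = e t ht := by
      apply Finset.surj_on_of_inj_on_of_card_le e he1
      · intro a b ha hb hab
        have h3 := hroot1 a ha _ (he2 a ha)
        have h4 := hroot1 b hb _ (he2 b hb)
        rw [← h3, ← h4, hab]
      · exact hc.le
    intro s hs
    obtain ⟨t, ht, hts⟩ := hsurj s hs
    have ho : orb t s := hts.symm ▸ he2 t ht
    rw [hroot1 t ht s ho]
    refine ⟨ht, ?_⟩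
    have ho' := ho
    rw [horb] at ho
    obtain ⟨m, hm, hm'⟩ := ho
    clear hts ho' hs
    induction m generalizing s with
    | zero => rw [← hm]; exact Relation.ReflTransGen.refl
    | succ m ih =>
      refine (ih (σ^[m] t) rfl (fun j hj => hm' j (by omega))).tail ?_
      refine ⟨⟨t, ht, ?_⟩, hm' m (by omega), ?_⟩
      · rw [horb]
        exact ⟨m, rfl, fun j hj => hm' j (by omega)⟩
      · rw [← hm, Function.iterate_succ_apply']
  · intro s hs s' hs' h
    choose e he1 he2 using hterm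
    have hsurj : ∀ s ∈ S, ∃ t, ∃ ht : t ∈ T, s = e t ht := by
      apply Finset.surj_on_of_inj_on_of_card_le e he1
      · intro a b ha hb hab
        have h3 := hroot1 a ha _ (he2 a ha)
        have h4 := hroot1 b hb _ (he2 b hb)
        rw [← h3, ← h4, hab]
      · exact hc.le
    obtain ⟨t, ht, hts⟩ := hsurj s hs
    obtain ⟨t', ht', hts'⟩ := hsurj s' hs'
    have h3 := hroot1 t ht s (hts.symm ▸ he2 t ht)
    have h4 := hroot1 t' ht' s' (hts'.symm ▸ he2 t' ht')
    have h5 : t = t' := by rw [← h3, ← h4, h]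
    subst h5
    rw [hts, hts']

end TH992.E
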