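import Pool.Agent.TH992.E.Win
import Pool.Agent.H160R2.MU.All

/-!
`k` clusters crossing an annulus: the upper bound of the right order.
-/

set_option autoImplicit false

namespace TH992.E

open H974 H906.Cyl Finset
open Pool.Agent.H160R2.ML (nm KArm)
open Pool.Agent.H160R2.MU (SE CL Cb sv sP)

/-- the edges of the box -/
def bx (n : ℤ) : Set Edg := {e | nm (src e) ≤ n ∧ nm (tgt e) ≤ n}

/-! ## the last exit -/

theorem exit1 {G : Set Edg} {B : Set Vtx} {x w : Vtx} (hx : x ∈ B) (h : Reach G x w) :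
    ∃ u ∈ B, Reach G x u ∧ Reach (G \ inE B) u w := by
  induction h with
  | refl => exact ⟨x, hx, Reach.refl _ _, Reach.refl _ _⟩
  | @tail v w hxv hs ih =>
    by_cases hw : w ∈ B
    · exact ⟨w, hw, Reach.trans hxv (Adj.reach hs), Reach.refl _ _⟩
    · obtain ⟨u, hu, h1, h2⟩ := ih
      refine ⟨u, hu, h1, h2.trans (Adj.reach ?_)⟩
      obtain ⟨e, he, he'⟩ := hs
      refine ⟨e, ⟨he, ?_⟩, he'⟩
      rintro ⟨h3, h4⟩
      rcases he' with ⟨h5, h6⟩ | ⟨h5, h6⟩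
      · exact hw (h6 ▸ h4)
      · exact hw (h5 ▸ h3)

theorem edge_N1 (e : Edg) : N1 (src e) ≤ N1 (tgt e) + 1 ∧ N1 (tgt e) ≤ N1 (src e) + 1 := by
  obtain ⟨x, y, _ | _⟩ := e
  · rw [src_mk, tgt_false]; simp only [N1]; omega
  · rw [src_mk, tgt_true]; simp only [N1]; omega

theorem exit2 {G : Set Edg} {ρ : ℕ} {u w : Vtx} (hu : u ∈ Bl ρ) (hw : w ∉ Bl ρ)
    (h : Reach (G \ inE (Bl ρ)) u w) : N1 u = ρ := by
  have hu' : N1 u ≤ ρ := hu
  rcases Relation.ReflTransGen.cases_head h with rfl | ⟨v, hs, _⟩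
  · exact absurd hu hw
  · obtain ⟨e, ⟨_, he⟩, he'⟩ := hs
    have h1 := edge_N1 e
    have h2 : ¬ (N1 (src e) ≤ ρ ∧ N1 (tgt e) ≤ ρ) := he
    rcases he' with ⟨h5, h6⟩ | ⟨h5, h6⟩
    · rw [h5] at h1 h2; omega
    · rw [h6] at h1 h2; omega

theorem nm_N1 (v : Vtx) : nm v ≤ N1 v := by
  unfold nm N1
  push_cast
  apply max_le
  · have := abs_nonneg v.2; linarith
  · have := abs_nonneg v.1; linarith

theorem N1_nm (v : Vtx) : (N1 v : ℤ) ≤ 2 * nm v := by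
  unfold nm N1
  push_cast
  have h1 := le_max_left |v.1| |v.2|
  have h2 := le_max_right |v.1| |v.2|
  linarith

theorem det {k r n : ℕ} (hn : 2 * r + 3 * k + 6 < n) {F : Set Edg} (hF : F ⊆ bx n)
    (h : KArm k r n F) :
    ∃ F' : Set Edg, F' ⊆ bx n ∧ (∀ e, e ∉ inE (Bl (2 * r + 3 * k + 6)) → (e ∈ F' ↔ e ∈ F)) ∧
      SE k n F' := by
  obtain ⟨x, hx, hxd⟩ := h
  obtain ⟨ρ, hρ⟩ : ∃ ρ : ℕ, ρ = 2 * r + 3 * k + 6 := ⟨_, rfl⟩
  rw [← hρ] at hn ⊢
  set G := F ∩ Pool.Agent.H160R2.ML.annE r n with hG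
  have hGF : F \ inE (Bl ρ) = G \ inE (Bl ρ) := by
    ext e
    constructor
    · rintro ⟨h1, h2⟩
      have h3 := hF h1
      have h4 : ¬ (N1 (src e) ≤ ρ ∧ N1 (tgt e) ≤ ρ) := h2
      have h5 := edge_N1 e
      have h6 := nm_N1 (src e)
      have h7 := nm_N1 (tgt e)
      have h8 := N1_nm (src e)
      have h9 := N1_nm (tgt e)
      have h10 : ρ ≤ N1 (src e) := by omega
      have h11 : ρ ≤ N1 (tgt e) := by omega
      have h12 : (ρ : ℤ) ≤ N1 (src e) := by exact_mod_cast h10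
      have h13 : (ρ : ℤ) ≤ N1 (tgt e) := by exact_mod_cast h11
      refine ⟨⟨h1, ⟨⟨by omega, h3.1⟩, ⟨by omega, h3.2⟩⟩⟩, h2⟩
    · rintro ⟨h1, h2⟩
      exact ⟨h1.1, h2⟩
  have hex : ∀ i, ∃ u, N1 u = ρ ∧ Reach G (x i) u ∧ ∃ w, nm w = n ∧
      Reach (F \ inE (Bl ρ)) u w := by
    intro i
    obtain ⟨h1, w, hw, h2⟩ := hx i
    have hxB : x i ∈ Bl ρ := by
      have h3 := N1_nm (x i)
      show N1 (x i) ≤ ρ
      omega
    have hwB : w ∉ Bl ρ := by
      intro h3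
      have h4 : N1 w ≤ ρ := h3
      have h5 := nm_N1 w
      omega
    obtain ⟨u, hu, h3, h4⟩ := exit1 hxB h2
    exact ⟨u, exit2 hu hwB h4, h3, w, hw, hGF ▸ h4⟩
  choose u hu hxu hw using hex
  have hd : ∀ i j, i ≠ j → ¬ Reach (F \ inE (Bl ρ)) (u i) (u j) := by
    intro i j hij h
    rw [hGF] at h
    exact hxd i j hij ((hxu i).trans ((h.mono Set.sdiff_subset).trans (hxu j).symm))
  have hinj : Function.Injective u := by
    intro i j h
    by_contra hij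
    exact hd i j hij (h ▸ Reach.refl _ _)
  have hQn : ∀ v, N1 v ≤ ρ → nm v ≤ n := by
    intro v hv
    have h1 := nm_N1 v
    have h2 : (N1 v : ℤ) ≤ ρ := by exact_mod_cast hv
    have h3 : (ρ : ℤ) < n := by exact_mod_cast hn
    omega
  obtain ⟨F', h1, h2, h3⟩ := win (k := k) (ρ := ρ) (n := n) (F := F \ inE (Bl ρ)) (by omega) u hu
    hinj hQn (fun e he => hF he.1)
    (by
      intro e he
      have h1 := edge_N1 e
      have h2 : ¬ (N1 (src e) ≤ ρ ∧ N1 (tgt e) ≤ ρ) := he.2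
      constructor
      · omega
      · omega) hw hd
  refine ⟨F', ?_, ?_, h3⟩
  · intro e he
    rcases h2 he with h4 | h4
    · exact hF h4.1
    · exact ⟨hQn _ h4.1, hQn _ h4.2⟩
  · intro e he
    constructor
    · intro h4
      rcases h2 h4 with h5 | h5
      · exact h5.1
      · exact absurd h5 he
    · intro h4
      exact h1 ⟨h4, he⟩

/-! ## probability -/

theorem pr_mod {S D : Finset Edg} (hD : D ⊆ S) {A B : Finset Edg → Prop}
    (h : ∀ F, F ⊆ S → A F → ∃ F', F' ⊆ S ∧ F' \ D = F \ D ∧ B F') :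
    Pr (fun _ => (1 / 2 : ℝ)) S A ≤ 2 ^ D.card * Pr (fun _ => (1 / 2 : ℝ)) S B := by
  have hok : Ok (fun _ : Edg => (1 / 2 : ℝ)) := fun e => by constructor <;> norm_num
  have hS : S = (S \ D) ∪ D := by rw [Finset.sdiff_union_of_subset hD]
  have hd : Disjoint (S \ D) D := Finset.sdiff_disjoint
  have e1 : ∀ A : Finset Edg → Prop, Pr (fun _ => (1 / 2 : ℝ)) S A =
      Ex (fun _ => (1 / 2 : ℝ)) (S \ D) (fun X => Ex (fun _ => (1 / 2 : ℝ)) D
        (fun Y => ind (A (X ∪ Y)))) := by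
    intro A
    unfold Pr
    conv_lhs => rw [hS]
    rw [Ex_union hd]
  rw [e1 A, e1 B, ← Ex_mul_left]
  apply Ex_mono hok
  intro X hX
  have hXD : Disjoint X D := Finset.disjoint_of_subset_left hX hd
  by_cases hE : ∃ Y, Y ⊆ D ∧ A (X ∪ Y)
  · obtain ⟨Y, hY, hA⟩ := hE
    have hXS : X ⊆ S := hX.trans Finset.sdiff_subset
    obtain ⟨F', hF', hFD, hB⟩ := h (X ∪ Y) (Finset.union_subset hXS (hY.trans hD)) hA
    have e2 : (X ∪ Y) \ D = X := by
      rw [Finset.union_sdiff_distrib, Finset.sdiff_eq_empty_iff_subset.mpr hY,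
        Finset.sdiff_eq_self_of_disjoint hXD, Finset.union_empty]
    have e3 : X ∪ (F' ∩ D) = F' := by
      rw [← e2, ← hFD, Finset.sdiff_union_inter]
    have h1 : (1 / 2 : ℝ) ^ D.card ≤ Ex (fun _ => (1 / 2 : ℝ)) D (fun Y => ind (B (X ∪ Y))) := by
      unfold Ex
      have h2 : (∏ e ∈ F' ∩ D, (1 / 2 : ℝ)) * (∏ e ∈ D \ (F' ∩ D), (1 - (1 / 2 : ℝ))) *
          ind (B (X ∪ (F' ∩ D))) = (1 / 2 : ℝ) ^ D.card := by
        rw [e3, ind_of hB, mul_one, Finset.prod_const, Finset.prod_const]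
        have h3 : (1 - (1 / 2 : ℝ)) = 1 / 2 := by norm_num
        rw [h3, ← pow_add]
        congr 1
        have := Finset.card_sdiff_add_card_eq_card (s := F' ∩ D) (t := D) Finset.inter_subset_right
        omega
      rw [← h2]
      apply Finset.single_le_sum (f := fun F => (∏ e ∈ F, (1 / 2 : ℝ)) *
        (∏ e ∈ D \ F, (1 - (1 / 2 : ℝ))) * ind (B (X ∪ F)))
      · intro F _
        apply mul_nonneg
        · apply mul_nonneg
          · exact Finset.prod_nonneg (fun _ _ => by norm_num)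
          · exact Finset.prod_nonneg (fun _ _ => by norm_num)
        · exact ind_nonneg _
      · exact Finset.mem_powerset.mpr Finset.inter_subset_right
    have h4 : Ex (fun _ => (1 / 2 : ℝ)) D (fun Y => ind (A (X ∪ Y))) ≤ 1 :=
      Ex_le_of_le hok (fun Y _ => ind_le_one _)
    have h5 : (2 : ℝ) ^ D.card * (1 / 2) ^ D.card = 1 := by
      rw [← mul_pow]; norm_num
    calc Ex (fun _ => (1 / 2 : ℝ)) D (fun Y => ind (A (X ∪ Y))) ≤ 1 := h4
      _ = (2 : ℝ) ^ D.card * (1 / 2) ^ D.card := h5.symm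
      _ ≤ _ := mul_le_mul_of_nonneg_left h1 (by positivity)
  · have h1 : Ex (fun _ => (1 / 2 : ℝ)) D (fun Y => ind (A (X ∪ Y))) ≤ 0 := by
      apply Ex_le_of_le hok
      intro Y hY
      rw [ind_not_of (fun h => hE ⟨Y, hY, h⟩)]
    refine h1.trans (mul_nonneg (by positivity) (Ex_nonneg hok (fun Y _ => ind_nonneg _)))

theorem bx_box {R : ℕ} {e : Edg} : e ∈ bx R ↔ e ∈ boxE R := by
  obtain ⟨x, y, _ | _⟩ := e
  · unfold boxE
    rw [mem_RE_false]
    simp only [bx, nm, Set.mem_ofPred_eq, src_mk, tgt_false, max_le_iff, abs_le]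
    omega
  · unfold boxE
    rw [mem_RE_true]
    simp only [bx, nm, Set.mem_ofPred_eq, src_mk, tgt_true, max_le_iff, abs_le]
    omega

theorem in_box {ρ : ℕ} {e : Edg} (h : e ∈ inE (Bl ρ)) : e ∈ boxE ρ := by
  obtain ⟨h8, h9⟩ := h
  rw [← bx_box]
  have h8' : N1 (src e) ≤ ρ := h8
  have h9' : N1 (tgt e) ≤ ρ := h9
  have h10 := nm_N1 (src e)
  have h11 := nm_N1 (tgt e)
  constructor
  · omega
  · omega

theorem pr_le {k r n : ℕ} (hn : 2 * r + 3 * k + 6 < n) :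
    Pr (fun _ => (1 / 2 : ℝ)) (boxE n) (fun F => KArm k r n (↑F : Set Edg)) ≤
      2 ^ (boxE ((2 * r + 3 * k + 6 : ℕ))).card * sP k n := by
  classical
  unfold sP
  apply pr_mod (boxE_mono (by omega))
  intro F hF hC
  have hFb : (↑F : Set Edg) ⊆ bx n := fun e he => bx_box.mpr (hF he)
  obtain ⟨F', h1, h2, h3⟩ := det hn hFb hC
  have h4 : (↑((boxE n).filter (fun e => e ∈ F')) : Set Edg) = F' := by
    ext e
    simp only [Finset.coe_filter, Set.mem_ofPred_eq]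
    constructor
    · exact fun h => h.2
    · exact fun h => ⟨bx_box.mp (h1 h), h⟩
  refine ⟨(boxE n).filter (fun e => e ∈ F'), Finset.filter_subset _ _, ?_, by rw [h4]; exact h3⟩
  ext e
  rw [Finset.mem_sdiff, Finset.mem_sdiff, Finset.mem_filter]
  constructor
  · rintro ⟨⟨_, h5⟩, h6⟩
    refine ⟨?_, h6⟩
    have h7 : e ∉ inE (Bl (2 * r + 3 * k + 6)) := fun h => h6 (in_box h)
    exact_mod_cast (h2 e h7).mp h5
  · rintro ⟨h5, h6⟩
    have h7 : e ∉ inE (Bl (2 * r + 3 * k + 6)) := fun h => h6 (in_box h)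
    exact ⟨⟨hF h5, (h2 e h7).mpr (by exact_mod_cast h5)⟩, h6⟩

/-- **the upper bound** for every number of clusters and every inner radius -/
theorem upper (k : ℕ) (hk : 2 ≤ k) (r : ℕ) : ∃ C : ℝ, 0 < C ∧ ∀ n : ℕ, 1 ≤ n →
    Pr (fun _ => (1 / 2 : ℝ)) (boxE n) (fun F => KArm k r n (↑F : Set Edg)) ≤
      C * (n : ℝ) ^ (-((4 * (k : ℝ) ^ 2 - 1) / 12)) := by
  obtain ⟨C0, hC0, hU⟩ := Pool.Agent.H160R2.MU.a_UB k hk
  obtain ⟨a, ha⟩ : ∃ a : ℝ, a = (4 * (k : ℝ) ^ 2 - 1) / 12 := ⟨_, rfl⟩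
  have hk2 : (2 : ℝ) ≤ k := by exact_mod_cast hk
  have ha0 : 0 < a := by rw [ha]; nlinarith
  rw [← ha] at hU ⊢
  obtain ⟨ρ, hρ⟩ : ∃ ρ : ℕ, ρ = 2 * r + 3 * k + 6 := ⟨_, rfl⟩
  have hρ1 : (0 : ℝ) < (ρ : ℝ) := by
    have : 0 < ρ := by omega
    exact_mod_cast this
  have hD : (0 : ℝ) < 2 ^ (boxE (ρ : ℕ)).card := by positivity
  have hρa : (0 : ℝ) < (ρ : ℝ) ^ a := Real.rpow_pos_of_pos hρ1 _
  refine ⟨2 ^ (boxE (ρ : ℕ)).card * C0 + (ρ : ℝ) ^ a, by positivity, ?_⟩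
  intro n hn
  have hn0 : (0 : ℝ) < n := by exact_mod_cast hn
  have hp : (0 : ℝ) < (n : ℝ) ^ (-a) := Real.rpow_pos_of_pos hn0 _
  by_cases h : ρ < n
  · have h1 := hU n (by omega)
    have h0 := pr_le (k := k) (r := r) (n := n) (by omega)
    rw [← hρ] at h0
    calc Pr (fun _ => (1 / 2 : ℝ)) (boxE n) (fun F => KArm k r n (↑F : Set Edg))
        ≤ 2 ^ (boxE (ρ : ℕ)).card * sP k n := h0
      _ ≤ 2 ^ (boxE (ρ : ℕ)).card * (C0 * (n : ℝ) ^ (-a)) :=
        mul_le_mul_of_nonneg_left h1 hD.le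
      _ ≤ _ := by nlinarith [mul_pos hρa hp]
  · have hok : Ok (fun _ : Edg => (1 / 2 : ℝ)) := fun e => by constructor <;> norm_num
    have h1 : Pr (fun _ => (1 / 2 : ℝ)) (boxE n) (fun F => KArm k r n (↑F : Set Edg)) ≤ 1 :=
      Pr_le_one hok _ _
    have h2 : (n : ℝ) ^ a ≤ (ρ : ℝ) ^ a := by
      apply Real.rpow_le_rpow hn0.le _ ha0.le
      exact_mod_cast (by omega : n ≤ ρ)
    have h3 : (n : ℝ) ^ a * (n : ℝ) ^ (-a) = 1 := by
      rw [← Real.rpow_add hn0]; simp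
    have h4 := mul_le_mul_of_nonneg_right h2 hp.le
    rw [h3] at h4
    have h5 : 0 < 2 ^ (boxE (ρ : ℕ)).card * C0 * (n : ℝ) ^ (-a) := by positivity
    rw [add_mul]
    linarith

end TH992.E
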