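import Pool.Agent.TH992.E.Graph

/-!
Few vertices do not separate the slit from far vertices.
-/

set_option autoImplicit false

namespace TH992.E

open H974 H906.Cyl Finset
open Pool.Agent.H160R2.ML (nm)
open Pool.Agent.H160R2.MU (SE CL Cb sv sP)

/-- the copies of the vertices with norm less than `ρ`, and the vertices of `U` -/
noncomputable def Wt (k ρ : ℕ) (U : Finset Vtx) : Finset PB := by
  classical
  exact (((Finset.Icc (-(ρ : ℤ)) ρ ×ˢ Finset.Icc (-(ρ : ℤ)) ρ) ×ˢ Finset.univ).filter
    (fun x : PB => N1 x.1 < ρ ∧ nu k x = x)) ∪ U.image (fun v => (v, false))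

theorem mem_Wt {k ρ : ℕ} {U : Finset Vtx} {x : PB} :
    x ∈ Wt k ρ U ↔ (N1 x.1 < ρ ∧ nu k x = x) ∨ ∃ v ∈ U, (v, false) = x := by
  classical
  unfold Wt
  rw [mem_union, mem_filter, mem_product, mem_product, mem_image]
  constructor
  · rintro (⟨_, h⟩ | h)
    · exact Or.inl h
    · exact Or.inr h
  · rintro (h | h)
    · left
      refine ⟨⟨⟨?_, ?_⟩, mem_univ _⟩, h⟩
      · rw [mem_Icc]
        have := h.1
        unfold N1 at this
        omega
      · rw [mem_Icc]
        have := h.1
        unfold N1 at this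
        omega
    · exact Or.inr h

/-- the tips -/
noncomputable def Tp (k : ℕ) : Finset PB := by
  classical
  exact (range k).image (fun i => sv k (2 * i))

theorem mem_Tp {k : ℕ} {x : PB} : x ∈ Tp k ↔ ∃ i < k, sv k (2 * i) = x := by
  classical
  unfold Tp
  rw [mem_image]
  constructor
  · rintro ⟨i, hi, h⟩
    exact ⟨i, mem_range.mp hi, h⟩
  · rintro ⟨i, hi, h⟩
    exact ⟨i, mem_range.mpr hi, h⟩

theorem sv_lo {k i : ℕ} (h : 2 * i ≤ k) : sv k (2 * i) = (((i : ℤ), (i : ℤ)), false) := by
  unfold sv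
  rw [if_pos h]
  have : 2 * i / 2 = i := by omega
  rw [this]

theorem sv_hi {k i : ℕ} (h : ¬ 2 * i ≤ k) :
    sv k (2 * i) = ((((k - i : ℕ) : ℤ), ((k - i : ℕ) : ℤ)), true) := by
  unfold sv
  rw [if_neg h]
  have : (2 * k - 2 * i) / 2 = k - i := by omega
  rw [this]

theorem sv_nu {k i : ℕ} (hi : i < k) : nu k (sv k (2 * i)) = sv k (2 * i) := by
  by_cases h : 2 * i ≤ k
  · rw [sv_lo h]
    unfold nu
    split_ifs <;> rfl
  · rw [sv_hi h]
    unfold nu
    rw [if_pos]
    refine ⟨rfl, ?_, ?_⟩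
    · simp only; omega
    · simp only; omega

/-- the label of the rays -/
def lab (k : ℕ) (x : PB) : ℕ :=
  if x.2 = false ∧ x.1.1 ≤ x.1.2 then x.1.1.toNat else k - x.1.2.toNat

/-- the ray number `i` -/
def ray (k i : ℕ) (j : ℕ) : PB :=
  if 2 * i ≤ k then nu k (((i : ℤ), (i : ℤ) + j), false)
  else nu k ((((k - i : ℕ) : ℤ) + j, ((k - i : ℕ) : ℤ)), true)

theorem ray_lo {k i : ℕ} (h : 2 * i ≤ k) (j : ℕ) :
    ray k i j = (((i : ℤ), (i : ℤ) + j), false) := by
  unfold ray
  rw [if_pos h]
  unfold nu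
  split_ifs <;> rfl

theorem ray_hi {k i : ℕ} (h : ¬ 2 * i ≤ k) (j : ℕ) :
    ray k i j = nu k ((((k - i : ℕ) : ℤ) + j, ((k - i : ℕ) : ℤ)), true) := by
  unfold ray
  rw [if_neg h]

theorem ray_fst {k i : ℕ} (h : ¬ 2 * i ≤ k) (j : ℕ) :
    (ray k i j).1 = (((k - i : ℕ) : ℤ) + j, ((k - i : ℕ) : ℤ)) := by
  rw [ray_hi h, nu_fst]

theorem ray_zero {k i : ℕ} (hi : i < k) : ray k i 0 = sv k (2 * i) := by
  by_cases h : 2 * i ≤ k
  · rw [ray_lo h, sv_lo h]
    simp
  · rw [ray_hi h, ← sv_nu hi, sv_hi h]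
    simp

theorem ray_nu {k i : ℕ} (j : ℕ) : nu k (ray k i j) = ray k i j := by
  unfold ray
  split_ifs
  · exact nu_nu _ _
  · exact nu_nu _ _

theorem ray_lab {k i : ℕ} (hi : i < k) (j : ℕ) : lab k (ray k i j) = i := by
  by_cases h : 2 * i ≤ k
  · rw [ray_lo h]
    unfold lab
    rw [if_pos]
    · simp
    · refine ⟨rfl, ?_⟩
      simp only
      omega
  · have h1 := ray_fst h j
    unfold lab
    rw [h1]
    rw [if_neg]
    · simp only
      omega
    · rintro ⟨h2, h3⟩
      simp only at h3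
      have hj : j = 0 := by omega
      subst hj
      rw [ray_zero hi, sv_hi h] at h2
      simp at h2

theorem ray_step {k i : ℕ} (j : ℕ) : cadj k (ray k i (j + 1)) (ray k i j) := by
  by_cases h : 2 * i ≤ k
  · refine ⟨((i : ℤ), (i : ℤ) + j, false), Or.inr ⟨?_, ?_⟩⟩
    · have hd : decide (0 ≤ dco ((i : ℤ), (i : ℤ) + j, false)) = false := by
        simp only [dco, decide_eq_false_iff_not, Bool.false_eq_true, if_false]
        omega
      rw [hd, src_mk]
      unfold ray
      rw [if_pos h]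
    · have hd : decide (0 ≤ dco ((i : ℤ), (i : ℤ) + j, false)) = false := by
        simp only [dco, decide_eq_false_iff_not, Bool.false_eq_true, if_false]
        omega
      rw [hd, tgt_false]
      unfold ray
      rw [if_pos h]
      push_cast
      rw [add_assoc]
  · refine ⟨(((k - i : ℕ) : ℤ) + j, ((k - i : ℕ) : ℤ), true), Or.inr ⟨?_, ?_⟩⟩
    · have hd : decide (0 ≤ dco (((k - i : ℕ) : ℤ) + j, ((k - i : ℕ) : ℤ), true)) = true := by
        simp only [dco, decide_eq_true_eq, if_true]
        omega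
      rw [hd, src_mk]
      unfold ray
      rw [if_neg h]
    · have hd : decide (0 ≤ dco (((k - i : ℕ) : ℤ) + j, ((k - i : ℕ) : ℤ), true)) = true := by
        simp only [dco, decide_eq_true_eq, if_true]
        omega
      rw [hd, tgt_true]
      unfold ray
      rw [if_neg h]
      push_cast
      rw [add_assoc]

theorem ray_N1 {k i : ℕ} (hi : i < k) (j : ℕ) :
    N1 (ray k i j).1 = (if 2 * i ≤ k then 2 * i else 2 * (k - i)) + j := by
  by_cases h : 2 * i ≤ k
  · rw [ray_lo h, if_pos h]
    simp only [N1]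
    omega
  · rw [ray_fst h, if_neg h]
    simp only [N1]
    omega

/-- Few vertices do not separate. -/
theorem sep {k ρ : ℕ} (hρ : 3 * k + 6 ≤ ρ) {U : Finset Vtx} (hU : ∀ v ∈ U, N1 v = ρ)
    (hUc : U.card = k) (X : Finset PB) (hX : X.card < k) :
    ∃ t ∈ U.image (fun v => ((v, false) : PB)), t ∉ X ∧ ∃ s ∈ Tp k,
      Relation.ReflTransGen (fun a b => cadj k a b ∧ b ∈ Wt k ρ U ∧ b ∉ X) t s := by
  classical
  obtain ⟨G, hG⟩ : ∃ G : PB → Prop, G = fun x => ∃ t ∈ U.image (fun v => ((v, false) : PB)),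
      t ∉ X ∧ Relation.ReflTransGen (fun a b => cadj k a b ∧ b ∈ Wt k ρ U ∧ b ∉ X) t x :=
    ⟨_, rfl⟩
  have Gstep : ∀ a b, G a → cadj k a b → b ∈ Wt k ρ U → b ∉ X → G b := by
    intro a b ha hab hb hbX
    rw [hG] at ha ⊢
    obtain ⟨t, ht, htX, hr⟩ := ha
    exact ⟨t, ht, htX, hr.tail ⟨hab, hb, hbX⟩⟩
  have Gfar : ∀ v w : Vtx, k ≤ N1 v → k ≤ N1 w → N1 w < ρ → Nb v w → G (v, false) →
      (w, false) ∉ X → G (w, false) := by
    intro v w hv hw hw' h hGv hwX
    exact Gstep _ _ hGv (cadj_far hv hw h) (mem_Wt.mpr (Or.inl ⟨hw', nu_far hw false⟩)) hwX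
  -- Step A: from `U` inwards
  have stepA : ∀ j : ℕ, j + k + 2 ≤ ρ → ∃ A : Finset Vtx,
      (∀ v ∈ A, N1 v + j = ρ ∧ G (v, false)) ∧ A.card ≤ k ∧
      k ≤ A.card + (X.filter (fun x => ρ ≤ N1 x.1 + j)).card := by
    intro j
    induction j with
    | zero =>
      intro _
      refine ⟨U.filter (fun v => ((v, false) : PB) ∉ X), ?_, ?_, ?_⟩
      · intro v hv
        rw [mem_filter] at hv
        refine ⟨by rw [hU v hv.1]; rfl, ?_⟩
        rw [hG]
        exact ⟨(v, false), mem_image.mpr ⟨v, hv.1, rfl⟩, hv.2, Relation.ReflTransGen.refl⟩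
      · exact (card_filter_le _ _).trans hUc.le
      · have h1 := card_filter_add_card_filter_not (s := U) (fun v => ((v, false) : PB) ∉ X)
        have h2 : (U.filter (fun v => ¬ (((v, false) : PB) ∉ X))).card ≤
            (X.filter (fun x => ρ ≤ N1 x.1 + 0)).card := by
          refine card_le_card_of_injOn (fun v => ((v, false) : PB)) ?_ ?_
          · intro v hv
            rw [mem_coe, mem_filter] at hv ⊢
            refine ⟨not_not.mp hv.2, ?_⟩
            simp only
            rw [hU v hv.1]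
            omega
          · intro v _ w _ h
            exact congrArg Prod.fst h
        omega
    | succ j ih =>
      intro hj
      obtain ⟨A, hA1, hA2, hA3⟩ := ih (by omega)
      obtain ⟨m, hm⟩ : ∃ m : ℕ, m + (j + 1) = ρ := ⟨ρ - (j + 1), by omega⟩
      obtain ⟨g, hg1, hg2, hg3⟩ := gap (m := m) A (by omega)
      have hAm : ∀ v ∈ A, N1 v = m + 1 := fun v hv => by have := (hA1 v hv).1; omega
      have hinj : Set.InjOn (ph g) (A : Set Vtx) := by
        intro v hv w hw h
        rw [← ps_ph hg1 hg2 (hAm v hv) (hg3 v hv), ← ps_ph hg1 hg2 (hAm w hw) (hg3 w hw), h]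
      refine ⟨(A.image (ph g)).filter (fun w => ((w, false) : PB) ∉ X), ?_, ?_, ?_⟩
      · intro w hw
        rw [mem_filter, mem_image] at hw
        obtain ⟨⟨v, hv, rfl⟩, hwX⟩ := hw
        obtain ⟨h1, h2⟩ := ph_nb hg1 hg2 (hAm v hv) (hg3 v hv)
        have h3 := hAm v hv
        exact ⟨by omega, Gfar v _ (by omega) (by omega) (by omega) h1 (hA1 v hv).2 hwX⟩
      · exact (card_filter_le _ _).trans (card_image_le.trans hA2)
      · have h1 := card_filter_add_card_filter_not (s := A.image (ph g))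
          (fun w => ((w, false) : PB) ∉ X)
        rw [card_image_of_injOn hinj] at h1
        have h2 : ((A.image (ph g)).filter (fun w => ¬ (((w, false) : PB) ∉ X))).card +
            (X.filter (fun x => ρ ≤ N1 x.1 + j)).card ≤
            (X.filter (fun x => ρ ≤ N1 x.1 + (j + 1))).card := by
          rw [← card_image_of_injOn (f := fun w => ((w, false) : PB))
            (s := (A.image (ph g)).filter (fun w => ¬ (((w, false) : PB) ∉ X)))
            (fun v _ w _ h => congrArg Prod.fst h)]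
          rw [← card_union_of_disjoint]
          · apply card_le_card
            intro x hx
            rw [mem_union] at hx
            rw [mem_filter]
            rcases hx with hx | hx
            · rw [mem_image] at hx
              obtain ⟨w, hw, rfl⟩ := hx
              rw [mem_filter, mem_image] at hw
              obtain ⟨⟨v, hv, rfl⟩, hwX⟩ := hw
              refine ⟨not_not.mp hwX, ?_⟩
              have := (ph_nb hg1 hg2 (hAm v hv) (hg3 v hv)).2
              simp only
              omega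
            · rw [mem_filter] at hx
              exact ⟨hx.1, by omega⟩
          · rw [disjoint_left]
            intro x hx hx'
            rw [mem_image] at hx
            obtain ⟨w, hw, rfl⟩ := hx
            rw [mem_filter, mem_image] at hw
            obtain ⟨⟨v, hv, rfl⟩, hwX⟩ := hw
            rw [mem_filter] at hx'
            have h3 := (ph_nb hg1 hg2 (hAm v hv) (hg3 v hv)).2
            have h4 := hx'.2
            simp only at h4
            omega
        omega
  -- Step B: a free ray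
  have stepB : ∃ i < k, ∀ j, ray k i j ∉ X := by
    by_contra hcon
    push Not at hcon
    choose! f hf using hcon
    have h1 : (range k).card ≤ X.card := by
      refine card_le_card_of_injOn (fun i => ray k i (f i)) ?_ ?_
      · intro i hi
        exact hf i (mem_range.mp hi)
      · intro i hi i' hi' h
        have h2 := ray_lab (mem_range.mp hi) (f i)
        have h3 := ray_lab (mem_range.mp hi') (f i')
        simp only at h
        rw [← h2, ← h3, h]
    rw [card_range] at h1
    omega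
  -- Step C: a free circuit
  have stepC : ∃ j < k, ∀ x ∈ X, N1 x.1 ≠ k + 2 + 2 * j ∧ N1 x.1 ≠ k + 3 + 2 * j := by
    by_contra hcon
    push Not at hcon
    choose! f hf1 hf2 using hcon
    have h1 : (range k).card ≤ X.card := by
      refine card_le_card_of_injOn f (fun i hi => hf1 i (mem_range.mp hi)) ?_
      intro i hi i' hi' h
      have h2 := hf2 i (mem_range.mp hi)
      have h3 := hf2 i' (mem_range.mp hi')
      rw [h] at h2
      by_cases h4 : N1 (f i').1 = k + 2 + 2 * i
      · by_cases h5 : N1 (f i').1 = k + 2 + 2 * i'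
        · omega
        · have := h3 h5
          omega
      · have h6 := h2 h4
        by_cases h5 : N1 (f i').1 = k + 2 + 2 * i'
        · omega
        · have := h3 h5
          omega
    rw [card_range] at h1
    omega
  obtain ⟨i, hi, hray⟩ := stepB
  obtain ⟨j, hj, hcirc⟩ := stepC
  obtain ⟨m, hm⟩ : ∃ m : ℕ, m = k + 2 + 2 * j := ⟨_, rfl⟩
  have hmρ : m + 1 < ρ := by omega
  have hfree : ∀ w : Vtx, (N1 w = m ∨ N1 w = m + 1) → ((w, false) : PB) ∉ X := by
    intro w hw hwX
    have := hcirc _ hwX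
    simp only at this
    omega
  -- the circuit
  have hP : ∀ v w : Vtx, (N1 v = m ∨ N1 v = m + 1) → (N1 w = m ∨ N1 w = m + 1) → Nb v w →
      G (v, false) → G (w, false) := by
    intro v w hv hw h hGv
    exact Gfar v w (by omega) (by omega) (by omega) h hGv (hfree w hw)
  have hPiff : ∀ v w : Vtx, (N1 v = m ∨ N1 v = m + 1) → (N1 w = m ∨ N1 w = m + 1) → Nb v w →
      (G (v, false) ↔ G (w, false)) :=
    fun v w hv hw h => ⟨hP v w hv hw h, hP w v hw hv h.symm⟩
  have hside : ∀ s1 s2 : ℤ, (s1 = 1 ∨ s1 = -1) → (s2 = 1 ∨ s2 = -1) → ∀ n : ℕ, n ≤ m →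
      (G ((s1 * n, s2 * ((m : ℤ) - n)), false) ↔ G (((0 : ℤ), s2 * m), false)) := by
    intro s1 s2 h1 h2 n
    induction n with
    | zero => intro _; simp
    | succ n ih =>
      intro hn
      rw [← ih (by omega)]
      have hnbx : Nb (s1 * (n : ℤ), s2 * ((m : ℤ) - n)) (s1 * ((n : ℤ) + 1), s2 * ((m : ℤ) - n)) := by
        rcases h1 with rfl | rfl
        · have := nb_h (n : ℤ) (s2 * ((m : ℤ) - n))
          simpa using this
        · have := (nb_h (-((n : ℤ) + 1)) (s2 * ((m : ℤ) - n))).symm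
          simp only [neg_mul, one_mul] at this ⊢
          have e : -((n : ℤ) + 1) + 1 = -(n : ℤ) := by ring
          rw [e] at this
          exact this
      have hnby : Nb (s1 * ((n : ℤ) + 1), s2 * ((m : ℤ) - n))
          (s1 * ((n : ℤ) + 1), s2 * ((m : ℤ) - (n + 1))) := by
        rcases h2 with rfl | rfl
        · have := (nb_v (s1 * ((n : ℤ) + 1)) ((m : ℤ) - (n + 1))).symm
          simp only [one_mul] at this ⊢
          have e : (m : ℤ) - (n + 1) + 1 = (m : ℤ) - n := by ring
          rw [e] at this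
          exact this
        · have := nb_v (s1 * ((n : ℤ) + 1)) (-((m : ℤ) - n))
          simp only [neg_mul, one_mul] at this ⊢
          have e : -((m : ℤ) - n) + 1 = -((m : ℤ) - (n + 1)) := by ring
          rw [e] at this
          exact this
      have hN0 : N1 (s1 * (n : ℤ), s2 * ((m : ℤ) - n)) = m := by
        unfold N1
        rcases h1 with rfl | rfl <;> rcases h2 with rfl | rfl <;> simp only <;> omega
      have hN1 : N1 (s1 * ((n : ℤ) + 1), s2 * ((m : ℤ) - n)) = m + 1 := by
        unfold N1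
        rcases h1 with rfl | rfl <;> rcases h2 with rfl | rfl <;> simp only <;> omega
      have hN2 : N1 (s1 * ((n : ℤ) + 1), s2 * ((m : ℤ) - (n + 1))) = m := by
        unfold N1
        rcases h1 with rfl | rfl <;> rcases h2 with rfl | rfl <;> simp only <;> omega
      push_cast
      rw [hPiff _ _ (Or.inl hN0) (Or.inr hN1) hnbx, hPiff _ _ (Or.inr hN1) (Or.inl hN2) hnby]
  have hall : ∀ v : Vtx, N1 v = m → (G (v, false) ↔ G (((0 : ℤ), (m : ℤ)), false)) := by
    have e1 := hside 1 1 (Or.inl rfl) (Or.inl rfl) m le_rfl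
    have e2 := hside 1 (-1) (Or.inl rfl) (Or.inr rfl) m le_rfl
    simp only [sub_self, mul_zero, one_mul, neg_mul] at e1 e2
    have e3 : G (((0 : ℤ), -(m : ℤ)), false) ↔ G (((0 : ℤ), (m : ℤ)), false) := by
      rw [← e2, e1]
    rintro ⟨x, y⟩ hv
    simp only [N1] at hv
    obtain ⟨s1, hs1, hx⟩ : ∃ s1 : ℤ, (s1 = 1 ∨ s1 = -1) ∧ x = s1 * (x.natAbs : ℤ) := by
      rcases le_or_gt 0 x with h | h
      · exact ⟨1, Or.inl rfl, by omega⟩
      · exact ⟨-1, Or.inr rfl, by omega⟩
    obtain ⟨s2, hs2, hy⟩ : ∃ s2 : ℤ, (s2 = 1 ∨ s2 = -1) ∧ y = s2 * (y.natAbs : ℤ) := by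
      rcases le_or_gt 0 y with h | h
      · exact ⟨1, Or.inl rfl, by omega⟩
      · exact ⟨-1, Or.inr rfl, by omega⟩
    have e4 := hside s1 s2 hs1 hs2 x.natAbs (by omega)
    have e5 : (m : ℤ) - (x.natAbs : ℤ) = (y.natAbs : ℤ) := by omega
    rw [e5, ← hx, ← hy] at e4
    rw [e4]
    rcases hs2 with rfl | rfl
    · rw [one_mul]
    · rw [neg_mul, one_mul]
      exact e3
  -- the circuit is reached from `U`
  obtain ⟨v0, hv0, hGv0⟩ : ∃ v0 : Vtx, N1 v0 = m ∧ G (v0, false) := by
    obtain ⟨A, hA1, _, hA3⟩ := stepA (ρ - m) (by omega)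
    have h1 : (X.filter (fun x => ρ ≤ N1 x.1 + (ρ - m))).card ≤ X.card := card_filter_le _ _
    have h2 : 0 < A.card := by omega
    obtain ⟨v, hv⟩ := card_pos.mp h2
    have := hA1 v hv
    exact ⟨v, by omega, this.2⟩
  have hGm : ∀ v : Vtx, N1 v = m → G (v, false) := by
    intro v hv
    rw [hall v hv, ← hall v0 hv0]
    exact hGv0
  -- back along the ray
  have hback : ∀ j' : ℕ, N1 (ray k i j').1 ≤ m → G (ray k i j') → G (ray k i 0) := by
    intro j'
    induction j' with
    | zero => intro _ h; exact h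
    | succ j' ih =>
      intro h1 h2
      have h3 := ray_N1 hi (j' + 1)
      have h4 := ray_N1 hi j'
      refine ih (by omega) ?_
      exact Gstep _ _ h2 (ray_step j') (mem_Wt.mpr (Or.inl ⟨by omega, ray_nu j'⟩)) (hray j')
  obtain ⟨j', hj'⟩ : ∃ j' : ℕ, N1 (ray k i j').1 = m := by
    refine ⟨m - (if 2 * i ≤ k then 2 * i else 2 * (k - i)), ?_⟩
    rw [ray_N1 hi]
    split_ifs <;> omega
  have hfin : G (ray k i 0) := by
    refine hback j' hj'.le ?_
    have h1 : ray k i j' = ((ray k i j').1, false) := by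
      rw [← ray_nu j']
      conv_lhs => rw [show ray k i j' = ((ray k i j').1, (ray k i j').2) from rfl]
      rw [nu_far (by omega)]
    rw [h1]
    exact hGm _ hj'
  rw [hG, ray_zero hi] at hfin
  obtain ⟨t, ht, htX, hr⟩ := hfin
  exact ⟨t, ht, htX, sv k (2 * i), mem_Tp.mpr ⟨i, hi, rfl⟩, hr⟩

end TH992.E
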