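import Pool.Agent.TH992.E.Sep

/-!
From `k` clusters which reach the diamond to the slit event.
-/

set_option autoImplicit false

namespace TH992.E

open H974 H906.Cyl Finset
open Pool.Agent.H160R2.ML (nm)
open Pool.Agent.H160R2.MU (SE CL Cb sv sP)

/-- edges with both ends in `Q` -/
def inE (Q : Set Vtx) : Set Edg := {e | src e ∈ Q ∧ tgt e ∈ Q}

/-- the diamond -/
def Bl (m : ℕ) : Set Vtx := {v | N1 v ≤ m}

theorem cb_nu {k : ℕ} {n : ℤ} {G : Set Edg} {v : Vtx} (hv : nm v ≤ n) (b : Bool) :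
    Cb k n G (v, b) (nu k (v, b)) := by
  unfold nu
  split_ifs with h
  · exact Relation.EqvGen.refl _
  · cases b
    · exact Relation.EqvGen.refl _
    · exact Relation.EqvGen.symm _ _ (Relation.EqvGen.rel _ _ (CL.idn v hv h))

theorem win {k ρ : ℕ} {n : ℤ} (hρ : 3 * k + 6 ≤ ρ) (u : Fin k → Vtx)
    (hu : ∀ i, N1 (u i) = ρ) (hinj : Function.Injective u) {F : Set Edg}
    (hρn : ∀ v, N1 v ≤ ρ → nm v ≤ n)
    (box : ∀ e ∈ F, nm (src e) ≤ n ∧ nm (tgt e) ≤ n)
    (fre : ∀ e ∈ F, ρ ≤ N1 (src e) ∧ ρ ≤ N1 (tgt e))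
    (con : ∀ i, ∃ w, nm w = n ∧ Reach F (u i) w)
    (dis : ∀ i j, i ≠ j → ¬ Reach F (u i) (u j)) :
    ∃ F' : Set Edg, F ⊆ F' ∧ F' ⊆ F ∪ inE (Bl ρ) ∧ SE k n F' := by
  classical
  obtain ⟨U, hU⟩ : ∃ U : Finset Vtx, U = Finset.univ.image u := ⟨_, rfl⟩
  have hUm : ∀ v, v ∈ U ↔ ∃ i, u i = v := by
    intro v; rw [hU, mem_image]; simp
  have hUN : ∀ v ∈ U, N1 v = ρ := by
    intro v hv
    obtain ⟨i, rfl⟩ := (hUm v).mp hv
    exact hu i
  have hUc : U.card = k := by
    rw [hU, card_image_of_injective _ hinj, card_univ, Fintype.card_fin]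
  obtain ⟨T, hT⟩ : ∃ T : Finset PB, T = U.image (fun v => ((v, false) : PB)) := ⟨_, rfl⟩
  have hTm : ∀ x, x ∈ T ↔ ∃ i, ((u i, false) : PB) = x := by
    intro x
    rw [hT, mem_image]
    constructor
    · rintro ⟨v, hv, rfl⟩
      obtain ⟨i, rfl⟩ := (hUm v).mp hv
      exact ⟨i, rfl⟩
    · rintro ⟨i, rfl⟩
      exact ⟨u i, (hUm _).mpr ⟨i, rfl⟩, rfl⟩
  have hTc : T.card = k := by
    rw [hT, card_image_of_injective _ (fun v w h => congrArg Prod.fst h), hUc]
  have hsvinj : ∀ i < k, ∀ j < k, sv k (2 * i) = sv k (2 * j) → i = j := by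
    intro i hi j hj h
    rw [← ray_zero hi, ← ray_zero hj] at h
    rw [← ray_lab hi 0, ← ray_lab hj 0, h]
  have hSc : (Tp k).card = k := by
    unfold Tp
    rw [card_image_of_injOn, card_range]
    intro i hi j hj h
    exact hsvinj i (mem_range.mp hi) j (mem_range.mp hj) h
  obtain ⟨R, root, r1, r2, r3, r4, r5, r6⟩ := linkage (Wt k ρ U) T (Tp k) (cadj k)
    (by
      intro x hx
      rw [hT, mem_image] at hx
      exact mem_Wt.mpr (Or.inr hx))
    (by rw [hSc, hTc])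
    (by
      intro X hX
      rw [hTc] at hX
      have := sep hρ hUN hUc X hX
      rw [← hT] at this
      exact this)
  -- norms
  have hWN : ∀ x ∈ Wt k ρ U, N1 x.1 ≤ ρ := by
    intro x hx
    rcases mem_Wt.mp hx with h | ⟨v, hv, rfl⟩
    · exact h.1.le
    · exact (hUN v hv).le
  obtain ⟨E', hE'⟩ : ∃ E' : Set Edg, E' = {e | ∃ x y, R x y ∧ Ce k e x y} := ⟨_, rfl⟩
  have hE'in : E' ⊆ inE (Bl ρ) := by
    intro e he
    rw [hE'] at he
    obtain ⟨x, y, hR, hC⟩ := he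
    obtain ⟨_, hx, hy⟩ := r1 x y hR
    have hx' := hWN x hx
    have hy' := hWN y hy
    rcases hC with ⟨h1, h2⟩ | ⟨h1, h2⟩
    · rw [h1, nu_fst] at hx'
      rw [h2, nu_fst] at hy'
      exact ⟨hx', hy'⟩
    · rw [h2, nu_fst] at hx'
      rw [h1, nu_fst] at hy'
      exact ⟨hy', hx'⟩
  have hbox : ∀ e ∈ F ∪ E', nm (src e) ≤ n ∧ nm (tgt e) ≤ n := by
    rintro e (he | he)
    · exact box e he
    · exact ⟨hρn _ (hE'in he).1, hρn _ (hE'in he).2⟩
  refine ⟨F ∪ E', Set.subset_union_left, Set.union_subset_union_right _ hE'in, ?_⟩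
  -- the root of an outer vertex
  have hrootF : ∀ v : Vtx, ρ ≤ N1 v → ∀ b, root (nu k (v, b)) = (v, false) := by
    intro v hv b
    rw [nu_far (by omega)]
    by_cases h : ((v, false) : PB) ∈ Wt k ρ U
    · rcases mem_Wt.mp h with h1 | ⟨w, hw, h1⟩
      · have := h1.1
        simp only at this
        omega
      · apply r4
        rw [hT, mem_image]
        exact ⟨w, hw, h1⟩
    · exact r3 _ h
  -- connections in the new configuration
  have key : ∀ x y, Cb k n (F ∪ E') x y → Reach F (root (nu k x)).1 (root (nu k y)).1 := by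
    intro x y h
    induction h with
    | rel x y h =>
      cases h with
      | edge e he _ _ =>
        rcases he with he | he
        · obtain ⟨h1, h2⟩ := fre e he
          rw [hrootF _ h1, hrootF _ h2]
          exact Adj.reach ⟨e, he, Or.inl ⟨rfl, rfl⟩⟩
        · rw [hE'] at he
          obtain ⟨x, y, hR, hC⟩ := he
          have h3 := r2 x y hR
          rcases hC with ⟨h1, h2⟩ | ⟨h1, h2⟩
          · rw [← h1, ← h2, h3]; exact Reach.refl _ _
          · rw [← h1, ← h2, h3]; exact Reach.refl _ _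
      | idn v hv hc =>
        have e1 : nu k (v, false) = (v, false) := by unfold nu; split_ifs <;> rfl
        have hc' : ¬ Sl k v := hc
        have e2 : nu k (v, true) = (v, false) := if_neg hc'
        rw [e1, e2]
        exact Reach.refl _ _
    | refl x => exact Reach.refl _ _
    | symm x y _ ih => exact ih.symm
    | trans x y z _ _ ih1 ih2 => exact ih1.trans ih2
  have hRcb : ∀ x y, R x y → Cb k n (F ∪ E') x y := by
    intro x y hR
    obtain ⟨⟨e, hC⟩, hx, hy⟩ := r1 x y hR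
    have he : e ∈ F ∪ E' := by
      right
      rw [hE']
      exact ⟨x, y, hR, hC⟩
    obtain ⟨h3, h4⟩ := hbox e he
    have hl : Cb k n (F ∪ E') (src e, decide (0 ≤ dco e)) (tgt e, decide (0 ≤ dco e)) :=
      Relation.EqvGen.rel _ _ (CL.edge e he h3 h4)
    have hl1 := cb_nu (k := k) (G := F ∪ E') h3 (decide (0 ≤ dco e))
    have hl2 := cb_nu (k := k) (G := F ∪ E') h4 (decide (0 ≤ dco e))
    have hl3 : Cb k n (F ∪ E') (nu k (src e, decide (0 ≤ dco e)))
        (nu k (tgt e, decide (0 ≤ dco e))) :=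
      Relation.EqvGen.trans _ _ _ (Relation.EqvGen.symm _ _ hl1)
        (Relation.EqvGen.trans _ _ _ hl hl2)
    rcases hC with ⟨h1, h2⟩ | ⟨h1, h2⟩
    · rw [h1, h2]; exact hl3
    · rw [h1, h2]; exact Relation.EqvGen.symm _ _ hl3
  have hlift : ∀ x y : Vtx, ρ ≤ N1 x → nm x ≤ n → Reach F x y →
      Cb k n (F ∪ E') (x, false) (y, false) := by
    intro x y hx hxn h
    induction h with
    | refl => exact Relation.EqvGen.refl _
    | @tail a b _ hs ih =>
      obtain ⟨f, hf, hf'⟩ := hs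
      obtain ⟨h1, h2⟩ := fre f hf
      have hf2 : f ∈ F ∪ E' := Or.inl hf
      obtain ⟨h3, h4⟩ := hbox f hf2
      have hl : Cb k n (F ∪ E') (src f, decide (0 ≤ dco f)) (tgt f, decide (0 ≤ dco f)) :=
        Relation.EqvGen.rel _ _ (CL.edge f hf2 h3 h4)
      have hl1 := cb_nu (k := k) (G := F ∪ E') h3 (decide (0 ≤ dco f))
      have hl2 := cb_nu (k := k) (G := F ∪ E') h4 (decide (0 ≤ dco f))
      rw [nu_far (by omega)] at hl1 hl2
      have hl3 : Cb k n (F ∪ E') (src f, false) (tgt f, false) :=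
        Relation.EqvGen.trans _ _ _ (Relation.EqvGen.symm _ _ hl1)
          (Relation.EqvGen.trans _ _ _ hl hl2)
      rcases hf' with ⟨h5, h6⟩ | ⟨h5, h6⟩
      · rw [h5, h6] at hl3
        exact Relation.EqvGen.trans _ _ _ ih hl3
      · rw [h5, h6] at hl3
        exact Relation.EqvGen.trans _ _ _ ih (Relation.EqvGen.symm _ _ hl3)
  refine ⟨?_, ?_⟩
  · intro i j hi hj hi2 hj2 hij h
    obtain ⟨i', hi'⟩ : ∃ i', i = 2 * i' := ⟨i / 2, by omega⟩
    obtain ⟨j', hj'⟩ : ∃ j', j = 2 * j' := ⟨j / 2, by omega⟩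
    subst hi' hj'
    have h1 := key _ _ h
    rw [sv_nu (by omega), sv_nu (by omega)] at h1
    have hsi := r5 _ (mem_Tp.mpr ⟨i', by omega, rfl⟩)
    have hsj := r5 _ (mem_Tp.mpr ⟨j', by omega, rfl⟩)
    obtain ⟨a, ha⟩ := (hTm _).mp hsi.1
    obtain ⟨b, hb⟩ := (hTm _).mp hsj.1
    rw [← ha, ← hb] at h1
    by_cases hab : a = b
    · apply hij
      have h2 := r6 _ (mem_Tp.mpr ⟨i', by omega, rfl⟩) _ (mem_Tp.mpr ⟨j', by omega, rfl⟩)
        (by rw [← ha, ← hb, hab])
      rw [hsvinj i' (by omega) j' (by omega) h2]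
    · exact dis a b hab h1
  · intro i hi hi2
    obtain ⟨i', hi'⟩ : ∃ i', i = 2 * i' := ⟨i / 2, by omega⟩
    subst hi'
    obtain ⟨h1, h2⟩ := r5 _ (mem_Tp.mpr ⟨i', by omega, rfl⟩)
    obtain ⟨a, ha⟩ := (hTm _).mp h1
    obtain ⟨w, hw, hr⟩ := con a
    refine ⟨w, false, hw, ?_⟩
    have h3 : Cb k n (F ∪ E') (root (sv k (2 * i'))) (sv k (2 * i')) := by
      generalize sv k (2 * i') = s at h2 ⊢
      generalize root s = t at h2 ⊢
      induction h2 with
      | refl => exact Relation.EqvGen.refl _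
      | tail _ hs ih => exact Relation.EqvGen.trans _ _ _ ih (hRcb _ _ hs)
    rw [← ha] at h3
    refine Relation.EqvGen.trans _ _ _ (Relation.EqvGen.symm _ _ h3) ?_
    exact hlift _ _ (hu a).ge (hρn _ (hu a).le) hr

end TH992.E
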